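import Pool.Agent.helper74.BH.Dens

/-!
# liminf A(n) / n^(1/h) for infinite B_h-sets, h odd: the enumeration of the set
-/

set_option autoImplicit false

open Finset

namespace Pool.Agent.BH

theorem enum_bound (p : ℕ) (A : Set ℕ) (hA : A.Infinite)
    (hB : ∀ s t : Multiset ℕ, Multiset.card s = hh p → Multiset.card t = hh p →
      (∀ x ∈ s, x ∈ A) → (∀ x ∈ t, x ∈ A) → s.sum = t.sum → s = t)
    (α : ℝ) (hα : 0 < α) (N : ℕ)
    (h : ∀ n : ℕ, N ≤ n → α * (n : ℝ) ^ ((1 : ℝ) / (hh p : ℕ)) ≤ ((A ∩ Set.Icc 1 n).ncard : ℝ)) :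
    (hh p : ℕ) * α ^ hh p ≤ C1 (p + 1) * cc p := by
  classical
  set P : ℕ → Prop := fun n => n ∈ A ∧ 1 ≤ n with hP
  have hinf : {n | P n}.Infinite := by
    have h1 : (A \ {0}).Infinite := hA.sdiff (Set.finite_singleton 0)
    refine h1.mono ?_
    rintro n ⟨hn, hn0⟩
    exact ⟨hn, Nat.one_le_iff_ne_zero.2 hn0⟩
  set a := Nat.nth P with had
  have ha : StrictMono a := Nat.nth_strictMono hinf
  have hmem : ∀ k, P (a k) := Nat.nth_mem_of_infinite hinf
  have hcount : ∀ k, (A ∩ Set.Icc 1 (a k - 1)).ncard = k := by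
    intro k
    have e : A ∩ Set.Icc 1 (a k - 1) = (((range (a k)).filter P : Finset ℕ) : Set ℕ) := by
      ext x
      have h2 := (hmem k).2
      simp only [Set.mem_inter_iff, Set.mem_Icc, Finset.coe_filter, Finset.mem_range, Set.mem_setOf_eq, hP]
      constructor
      · rintro ⟨h1, h3, h4⟩
        exact ⟨by omega, h1, h3⟩
      · rintro ⟨h1, h3, h4⟩
        exact ⟨h3, h4, by omega⟩
    rw [e, Set.ncard_coe_finset, ← Nat.count_eq_card_filter_range, Nat.count_nth_of_infinite hinf]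
  have hhe : hh p = 2 * p + 2 + 1 := rfl
  have hhne : hh p ≠ 0 := by omega
  refine dens p (fun i => a (i - 1)) α hα (N + 2 + ⌈α ^ hh p⌉₊) ?_ ?_
  · intro i hi
    obtain ⟨k, rfl⟩ : ∃ k, i = k + 1 := ⟨i - 1, by omega⟩
    simp only [Nat.add_sub_cancel]
    have h1 : k ≤ a k := ha.le_apply
    have h2 := h (a k - 1) (by omega)
    rw [hcount k] at h2
    have h3 : α ^ hh p ≤ k := by
      have e1 : α ^ hh p ≤ (⌈α ^ hh p⌉₊ : ℝ) := Nat.le_ceil _
      have e2 : ((⌈α ^ hh p⌉₊ : ℕ) : ℝ) ≤ k := by exact_mod_cast (by omega : ⌈α ^ hh p⌉₊ ≤ k)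
      linarith
    have hk1 : (1 : ℝ) ≤ k := by exact_mod_cast (by omega : 1 ≤ k)
    have h4 : ((a k - 1 : ℕ) : ℝ) = (a k : ℝ) - 1 := by
      rw [Nat.cast_sub (hmem k).2]
      norm_num
    have h5 : α ^ hh p * ((a k - 1 : ℕ) : ℝ) ≤ (k : ℝ) ^ hh p := by
      have e1 := pow_le_pow_left₀ (by positivity) h2 (hh p)
      rw [mul_pow] at e1
      have e2 : ((((a k - 1 : ℕ) : ℝ)) ^ ((1 : ℝ) / (hh p : ℕ))) ^ hh p = ((a k - 1 : ℕ) : ℝ) := by
        rw [one_div]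
        exact Real.rpow_inv_natCast_pow (Nat.cast_nonneg _) hhne
      rwa [e2] at e1
    rw [h4] at h5
    rw [le_div_iff₀ (by positivity)]
    push_cast
    have h6 : (0 : ℝ) ≤ k := Nat.cast_nonneg _
    have h7 := pow_succ_ge (k : ℝ) h6 (2 * p + 2)
    rw [← hhe] at h7
    have h8 : (k : ℝ) ≤ (k : ℝ) ^ (2 * p + 2) := le_self_pow₀ hk1 (by omega)
    have h9 : (1 : ℝ) * (k : ℝ) ^ (2 * p + 2) ≤ (((2 * p + 2 : ℕ) : ℝ) + 1) * (k : ℝ) ^ (2 * p + 2) := by
      refine mul_le_mul_of_nonneg_right ?_ (by positivity)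
      have : (0 : ℝ) ≤ ((2 * p + 2 : ℕ) : ℝ) := Nat.cast_nonneg _
      linarith
    linarith
  · intro m n hm s t hs ht hsm htm hsum
    have e : ∀ s : Multiset ℕ, (∀ x ∈ s, x ∈ Ico m n) → s = Multiset.map (fun t => t + 1) (Multiset.map (fun t => t - 1) s) := by
      intro s hs
      rw [Multiset.map_map]
      conv_lhs => rw [← Multiset.map_id s]
      refine Multiset.map_congr rfl fun x hx => ?_
      have := (Finset.mem_Ico.1 (hs x hx)).1
      simp only [Function.comp_apply, id]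
      omega
    rw [e s hsm, e t htm]
    congr 1
    apply Multiset.map_injective ha.injective
    apply hB
    · rw [Multiset.card_map, Multiset.card_map, hs]
      unfold hh
      ring
    · rw [Multiset.card_map, Multiset.card_map, ht]
      unfold hh
      ring
    · intro x hx
      rw [Multiset.mem_map] at hx
      obtain ⟨y, -, rfl⟩ := hx
      exact (hmem _).1
    · intro x hx
      rw [Multiset.mem_map] at hx
      obtain ⟨y, -, rfl⟩ := hx
      exact (hmem _).1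
    · rw [Multiset.map_map, Multiset.map_map]
      exact hsum

/-- the constant -/
theorem const_eq (p : ℕ) : C1 (p + 1) * cc p / (hh p : ℕ) =
    (((p + 2).factorial : ℕ) : ℝ) ^ 2 * (3 * ((p + 2 : ℕ) : ℝ) - 1) / (2 * ((p + 2 : ℕ) : ℝ) ^ 2 * (2 * ((p + 2 : ℕ) : ℝ) - 1)) := by
  unfold C1 cc hh
  have e1 : (((p + 1 + 1).factorial : ℕ) : ℝ) = (p + 2) * (((p + 1).factorial : ℕ) : ℝ) := by
    rw [Nat.factorial_succ]
    push_cast
    ring
  rw [e1]
  have h1 : (0 : ℝ) < p + 2 := by positivity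
  have h2 : (0 : ℝ) < 2 * p + 3 := by positivity
  push_cast
  have e3 : 2 * ((p : ℝ) + 2) - 1 = 2 * p + 3 := by ring
  have e4 : 3 * ((p : ℝ) + 2) - 1 = 3 * p + 5 := by ring
  rw [e3, e4]
  field_simp

theorem final (k : ℕ) (hk : 2 ≤ k) (A : Set ℕ) (hA : A.Infinite)
    (hB : ∀ s t : Multiset ℕ, Multiset.card s = 2 * k - 1 → Multiset.card t = 2 * k - 1 →
      (∀ x ∈ s, x ∈ A) → (∀ x ∈ t, x ∈ A) → s.sum = t.sum → s = t)
    (α : ℝ) (hα : ((k.factorial : ℝ) ^ 2 * (3 * k - 1) / (2 * (k : ℝ) ^ 2 * (2 * k - 1))) ^ ((1 : ℝ) / (2 * k - 1)) < α) (N : ℕ) :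
    ∃ n : ℕ, N ≤ n ∧ ((A ∩ Set.Icc 1 n).ncard : ℝ) < α * (n : ℝ) ^ ((1 : ℝ) / (2 * k - 1)) := by
  obtain ⟨p, rfl⟩ : ∃ p, k = p + 2 := ⟨k - 2, by omega⟩
  have eh : 2 * (p + 2) - 1 = hh p := by unfold hh; omega
  rw [eh] at hB
  have er : (2 * ((p + 2 : ℕ) : ℝ) - 1) = ((hh p : ℕ) : ℝ) := by
    unfold hh
    push_cast
    ring
  have hc := const_eq p
  rw [← hc, er] at hα
  rw [er]
  by_contra hcon
  push Not at hcon
  have hcc := cc_ge p
  have hC1 := C1_pos (p + 1)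
  have hh0 : (0 : ℝ) < ((hh p : ℕ) : ℝ) := by
    unfold hh
    push_cast
    positivity
  have h0 : 0 ≤ C1 (p + 1) * cc p / (hh p : ℕ) := by positivity
  have h0' : 0 ≤ (C1 (p + 1) * cc p / (hh p : ℕ)) ^ ((1 : ℝ) / (hh p : ℕ)) := by positivity
  have hα0 : 0 < α := lt_of_le_of_lt h0' hα
  have h1 := enum_bound p A hA hB α hα0 N hcon
  have h2 := pow_lt_pow_left₀ hα h0' (n := hh p) (by unfold hh; omega)
  rw [one_div, Real.rpow_inv_natCast_pow h0 (by unfold hh; omega), div_lt_iff₀ hh0] at h2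
  linarith

end Pool.Agent.BH
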