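import Mathlib

/-!
# liminf A(n) / n^(1/h) for infinite B_h-sets, h odd: the counting inequality
-/

set_option autoImplicit false

open Finset

namespace Pool.Agent.BH

/-- the family `b` on the indices `I` has distinct sums of `2 n + 1` elements -/
def BB (n : ℕ) (I : Finset ℕ) (b : ℕ → ℕ) : Prop := ∀ s t : Multiset ℕ, Multiset.card s = 2 * n + 1 →
  Multiset.card t = 2 * n + 1 → (∀ x ∈ s, x ∈ I) → (∀ x ∈ t, x ∈ I) → (s.map b).sum = (t.map b).sum → s = t

/-- the tuples of length `m` in `I` -/
def tup (m : ℕ) (I : Finset ℕ) : Finset (Fin m → ℕ) := Fintype.piFinset fun _ => I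

theorem mem_tup {m : ℕ} {I : Finset ℕ} {x : Fin m → ℕ} : x ∈ tup m I ↔ ∀ i, x i ∈ I := by
  unfold tup
  rw [Fintype.mem_piFinset]

theorem card_tup (m : ℕ) (I : Finset ℕ) : (tup m I).card = I.card ^ m := by
  unfold tup
  rw [Fintype.card_piFinset_const]

/-- the sum of a tuple -/
def sg (b : ℕ → ℕ) {m : ℕ} (x : Fin m → ℕ) : ℕ := ∑ i, b (x i)

/-- the triples `(x, y, t)` for a fixed `q` -/
def Qk (n : ℕ) (I : Finset ℕ) (b : ℕ → ℕ) (u : ℕ) (R : Finset ℕ) (q : ℕ) :
    Finset ((Fin (n + 1) → ℕ) × (Fin n → ℕ) × ℕ) :=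
  (tup (n + 1) I ×ˢ tup n I ×ˢ R).filter fun z => (sg b z.1 ≤ z.2.2 ∧ z.2.2 < sg b z.1 + u) ∧
    (b q + sg b z.2.1 ≤ z.2.2 ∧ z.2.2 < b q + sg b z.2.1 + u)

/-- tuples with the same multiset of values -/
theorem exists_perm {m : ℕ} {x y : Fin m → ℕ} (h : Multiset.map x univ.val = Multiset.map y univ.val) :
    ∃ σ : Equiv.Perm (Fin m), x = y ∘ σ := by
  classical
  have hcard : ∀ v : ℕ, Nonempty ({i // x i = v} ≃ {i // y i = v}) := by
    intro v
    refine ⟨Fintype.equivOfCardEq ?_⟩
    rw [Fintype.card_subtype, Fintype.card_subtype]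
    have h1 := congrArg (Multiset.count v) h
    rw [Multiset.count_map, Multiset.count_map] at h1
    have e : ∀ z : Fin m → ℕ, (univ.filter fun i => z i = v).card = Multiset.card (Multiset.filter (fun a => v = z a) univ.val) := by
      intro z
      rw [Finset.card_def, Finset.filter_val]
      congr 1
      refine Multiset.filter_congr fun i _ => ?_
      exact eq_comm
    rw [e, e]
    exact h1
  let e : ∀ v : ℕ, {i // x i = v} ≃ {i // y i = v} := fun v => (hcard v).some
  let σ : Equiv.Perm (Fin m) := (Equiv.sigmaFiberEquiv x).symm.trans ((Equiv.sigmaCongrRight e).trans (Equiv.sigmaFiberEquiv y))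
  refine ⟨σ, ?_⟩
  funext i
  exact ((e (x i)) ⟨i, rfl⟩).2.symm

theorem sum_map (b : ℕ → ℕ) {m : ℕ} (x : Fin m → ℕ) : (Multiset.map b (Multiset.map x univ.val)).sum = sg b x := by
  rw [Multiset.map_map]
  rfl

/-- two disjoint pairs of tuples with the same difference have the same values -/
theorem mult_eq {n : ℕ} {I : Finset ℕ} {b : ℕ → ℕ} (hb : BB n I b) {x x' : Fin (n + 1) → ℕ} {y y' : Fin n → ℕ}
    (hx : x ∈ tup (n + 1) I) (hx' : x' ∈ tup (n + 1) I) (hy : y ∈ tup n I) (hy' : y' ∈ tup n I)
    (hd : ∀ i j, x i ≠ y j) (hd' : ∀ i j, x' i ≠ y' j) (h : sg b x + sg b y' = sg b x' + sg b y) :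
    (∃ σ : Equiv.Perm (Fin (n + 1)), x = x' ∘ σ) ∧ ∃ σ : Equiv.Perm (Fin n), y = y' ∘ σ := by
  rw [mem_tup] at hx hx' hy hy'
  have key := hb (Multiset.map x univ.val + Multiset.map y' univ.val) (Multiset.map x' univ.val + Multiset.map y univ.val)
    (by simp; omega) (by simp; omega)
    (by
      intro z hz
      rw [Multiset.mem_add, Multiset.mem_map, Multiset.mem_map] at hz
      rcases hz with ⟨i, -, rfl⟩ | ⟨i, -, rfl⟩
      · exact hx i
      · exact hy' i)
    (by
      intro z hz
      rw [Multiset.mem_add, Multiset.mem_map, Multiset.mem_map] at hz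
      rcases hz with ⟨i, -, rfl⟩ | ⟨i, -, rfl⟩
      · exact hx' i
      · exact hy i)
    (by
      rw [Multiset.map_add, Multiset.map_add, Multiset.sum_add, Multiset.sum_add, sum_map, sum_map, sum_map, sum_map]
      exact h)
  have hc : ∀ a, Multiset.count a (Multiset.map x univ.val) = Multiset.count a (Multiset.map x' univ.val) ∧
      Multiset.count a (Multiset.map y univ.val) = Multiset.count a (Multiset.map y' univ.val) := by
    intro a
    have h1 := congrArg (Multiset.count a) key
    rw [Multiset.count_add, Multiset.count_add] at h1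
    have h2 : Multiset.count a (Multiset.map x univ.val) = 0 ∨ Multiset.count a (Multiset.map y univ.val) = 0 := by
      by_contra hcon
      push Not at hcon
      obtain ⟨h3, h4⟩ := hcon
      have h5 := Multiset.count_pos.1 (Nat.pos_of_ne_zero h3)
      have h6 := Multiset.count_pos.1 (Nat.pos_of_ne_zero h4)
      rw [Multiset.mem_map] at h5 h6
      obtain ⟨i, -, hi⟩ := h5
      obtain ⟨j, -, hj⟩ := h6
      exact hd i j (hi.trans hj.symm)
    have h2' : Multiset.count a (Multiset.map x' univ.val) = 0 ∨ Multiset.count a (Multiset.map y' univ.val) = 0 := by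
      by_contra hcon
      push Not at hcon
      obtain ⟨h3, h4⟩ := hcon
      have h5 := Multiset.count_pos.1 (Nat.pos_of_ne_zero h3)
      have h6 := Multiset.count_pos.1 (Nat.pos_of_ne_zero h4)
      rw [Multiset.mem_map] at h5 h6
      obtain ⟨i, -, hi⟩ := h5
      obtain ⟨j, -, hj⟩ := h6
      exact hd' i j (hi.trans hj.symm)
    omega
  exact ⟨exists_perm (Multiset.ext.2 fun a => (hc a).1), exists_perm (Multiset.ext.2 fun a => (hc a).2)⟩

/-- the triples with a common element -/
theorem card_triv {n : ℕ} {I : Finset ℕ} {b : ℕ → ℕ} {u : ℕ} {R : Finset ℕ} {q : ℕ} (hq : q ∈ I) (i : Fin (n + 1)) (j : Fin n) :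
    ((Qk n I b u R q).filter fun z => z.1 i = z.2.1 j).card ≤ I.card ^ (2 * n) * u := by
  classical
  set S : Finset (Fin n → ℕ) := (tup n I).filter fun y => y j = q with hS
  have h1 : ((Qk n I b u R q).filter fun z => z.1 i = z.2.1 j).card ≤ (tup (n + 1) I ×ˢ S ×ˢ range u).card := by
    refine Finset.card_le_card_of_injOn (fun z => (z.1, Function.update z.2.1 j q, z.2.2 - sg b z.1)) ?_ ?_
    · intro z hz
      rw [Finset.mem_coe, Finset.mem_filter] at hz
      obtain ⟨hz1, -⟩ := hz
      unfold Qk at hz1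
      rw [Finset.mem_filter, Finset.mem_product, Finset.mem_product] at hz1
      obtain ⟨⟨h2, h3, -⟩, ⟨h4, h5⟩, -⟩ := hz1
      rw [Finset.mem_coe, Finset.mem_product, Finset.mem_product, hS, Finset.mem_filter, Finset.mem_range]
      refine ⟨h2, ⟨?_, ?_⟩, ?_⟩
      · rw [mem_tup] at h3 ⊢
        intro l
        dsimp only
        by_cases hl : l = j
        · rw [hl, Function.update_self]
          exact hq
        · rw [Function.update_of_ne hl]
          exact h3 l
      · dsimp only
        rw [Function.update_self]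
      · dsimp only
        omega
    · intro z hz z' hz' h
      rw [Finset.mem_coe, Finset.mem_filter] at hz hz'
      obtain ⟨hz1, hz2⟩ := hz
      obtain ⟨hz1', hz2'⟩ := hz'
      unfold Qk at hz1 hz1'
      rw [Finset.mem_filter] at hz1 hz1'
      obtain ⟨x, y, t⟩ := z
      obtain ⟨x', y', t'⟩ := z'
      simp only [Prod.mk.injEq] at h
      simp only at hz1 hz1' hz2 hz2'
      obtain ⟨h2, h3, h4⟩ := h
      subst h2
      have h5 : y = y' := by
        funext l
        by_cases hl : l = j
        · rw [hl, ← hz2, ← hz2']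
        · have := congrFun h3 l
          rwa [Function.update_of_ne hl, Function.update_of_ne hl] at this
      subst h5
      have h6 : t = t' := by omega
      rw [h6]
  rw [Finset.card_product, Finset.card_product, Finset.card_range, card_tup] at h1
  have h2 : S.card * I.card ≤ I.card ^ n := by
    rw [← card_tup n I, ← Finset.card_product]
    refine Finset.card_le_card_of_injOn (fun z => Function.update z.1 j z.2) ?_ ?_
    · intro z hz
      rw [Finset.mem_coe, Finset.mem_product, hS, Finset.mem_filter] at hz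
      rw [Finset.mem_coe, mem_tup]
      intro l
      dsimp only
      by_cases hl : l = j
      · rw [hl, Function.update_self]
        exact hz.2
      · rw [Function.update_of_ne hl]
        exact mem_tup.1 hz.1.1 l
    · intro z hz z' hz' h
      rw [Finset.mem_coe, Finset.mem_product, hS, Finset.mem_filter] at hz hz'
      obtain ⟨y, c⟩ := z
      obtain ⟨y', c'⟩ := z'
      simp only at hz hz' h
      have h3 : c = c' := by
        have := congrFun h j
        rwa [Function.update_self, Function.update_self] at this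
      have h5 : y = y' := by
        funext l
        by_cases hl : l = j
        · rw [hl, hz.1.2, hz'.1.2]
        · have := congrFun h l
          rwa [Function.update_of_ne hl, Function.update_of_ne hl] at this
      rw [h3, h5]
  calc ((Qk n I b u R q).filter fun z => z.1 i = z.2.1 j).card ≤ I.card ^ (n + 1) * (S.card * u) := h1
    _ = I.card ^ n * (S.card * I.card) * u := by ring
    _ ≤ I.card ^ n * I.card ^ n * u := Nat.mul_le_mul_right _ (Nat.mul_le_mul_left _ h2)
    _ = I.card ^ (2 * n) * u := by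
      rw [← pow_add]
      congr 2
      omega

/-- the triples without a common element -/
theorem card_main {n : ℕ} {I : Finset ℕ} {b : ℕ → ℕ} (hb : BB n I b) {u : ℕ} {R : Finset ℕ} {q : ℕ} :
    ((Qk n I b u R q).filter fun z => ∀ i j, z.1 i ≠ z.2.1 j).card ≤ (n + 1).factorial * n.factorial * u ^ 2 := by
  classical
  set s3 := (Qk n I b u R q).filter fun z => ∀ i j, z.1 i ≠ z.2.1 j with hs3
  have h1 := Finset.card_le_mul_card_image (f := fun z : (Fin (n + 1) → ℕ) × (Fin n → ℕ) × ℕ =>
    (z.2.2 - sg b z.1, z.2.2 - (b q + sg b z.2.1))) s3 ((n + 1).factorial * n.factorial) ?_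
  · have h2 : (s3.image fun z : (Fin (n + 1) → ℕ) × (Fin n → ℕ) × ℕ => (z.2.2 - sg b z.1, z.2.2 - (b q + sg b z.2.1))) ⊆
        range u ×ˢ range u := by
      intro w hw
      rw [Finset.mem_image] at hw
      obtain ⟨z, hz, rfl⟩ := hw
      have h2 := (Finset.mem_filter.1 hz).1
      unfold Qk at h2
      rw [Finset.mem_filter] at h2
      rw [Finset.mem_product, Finset.mem_range, Finset.mem_range]
      constructor
      · dsimp only
        omega
      · dsimp only
        omega
    have h3 := Finset.card_le_card h2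
    rw [Finset.card_product, Finset.card_range] at h3
    calc s3.card ≤ _ := h1
      _ ≤ (n + 1).factorial * n.factorial * (u * u) := Nat.mul_le_mul_left _ h3
      _ = (n + 1).factorial * n.factorial * u ^ 2 := by ring
  · intro w hw
    rw [Finset.mem_image] at hw
    obtain ⟨z0, hz0, hzw⟩ := hw
    have hsub : (s3.filter fun z : (Fin (n + 1) → ℕ) × (Fin n → ℕ) × ℕ => (z.2.2 - sg b z.1, z.2.2 - (b q + sg b z.2.1)) = w) ⊆
        (univ : Finset (Equiv.Perm (Fin (n + 1)) × Equiv.Perm (Fin n))).image
          fun σ => (z0.1 ∘ σ.1, z0.2.1 ∘ σ.2, z0.2.2) := by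
      intro z hz
      rw [Finset.mem_filter] at hz
      obtain ⟨hz1, hz2⟩ := hz
      rw [← hzw] at hz2
      obtain ⟨x, y, t⟩ := z
      obtain ⟨x', y', t'⟩ := z0
      rw [hs3, Finset.mem_filter] at hz1 hz0
      unfold Qk at hz1 hz0
      rw [Finset.mem_filter, Finset.mem_product, Finset.mem_product] at hz1 hz0
      simp only [Prod.mk.injEq] at hz1 hz0 hz2
      obtain ⟨⟨⟨hx, hy, ht⟩, ⟨h1, h2⟩, h3, h4⟩, hn⟩ := hz1
      obtain ⟨⟨⟨hx', hy', ht'⟩, ⟨h1', h2'⟩, h3', h4'⟩, hn'⟩ := hz0
      have h5 : sg b x + sg b y' = sg b x' + sg b y := by omega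
      obtain ⟨⟨σ, hσ⟩, τ, hτ⟩ := mult_eq hb hx hx' hy hy' hn hn' h5
      have hsx : sg b x = sg b x' := by
        rw [hσ]
        exact Equiv.sum_comp σ (fun i => b (x' i))
      have h6 : t = t' := by omega
      rw [Finset.mem_image]
      refine ⟨(σ, τ), Finset.mem_univ _, ?_⟩
      rw [hσ, hτ, h6]
    refine (Finset.card_le_card hsub).trans (Finset.card_image_le.trans ?_)
    rw [Finset.card_univ, Fintype.card_prod, Fintype.card_perm, Fintype.card_perm, Fintype.card_fin, Fintype.card_fin]

theorem card_Qk {n : ℕ} {I : Finset ℕ} {b : ℕ → ℕ} (hb : BB n I b) (u : ℕ) (R : Finset ℕ) (q : ℕ) (hq : q ∈ I) :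
    (Qk n I b u R q).card ≤ (n + 1).factorial * n.factorial * u ^ 2 + (n + 1) * n * (I.card ^ (2 * n) * u) := by
  classical
  have hsub : Qk n I b u R q ⊆ ((Qk n I b u R q).filter fun z => ∀ i j, z.1 i ≠ z.2.1 j) ∪
      (univ : Finset (Fin (n + 1) × Fin n)).biUnion fun p => (Qk n I b u R q).filter fun z => z.1 p.1 = z.2.1 p.2 := by
    intro z hz
    rw [Finset.mem_union, Finset.mem_filter, Finset.mem_biUnion]
    by_cases h : ∀ i j, z.1 i ≠ z.2.1 j
    · exact Or.inl ⟨hz, h⟩
    · push Not at h
      obtain ⟨i, j, hij⟩ := h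
      exact Or.inr ⟨(i, j), Finset.mem_univ _, Finset.mem_filter.2 ⟨hz, hij⟩⟩
  refine (Finset.card_le_card hsub).trans ((Finset.card_union_le _ _).trans (Nat.add_le_add (card_main hb) ?_))
  refine Finset.card_biUnion_le.trans ?_
  refine (Finset.sum_le_sum fun p _ => card_triv hq p.1 p.2).trans ?_
  rw [Finset.sum_const, Finset.card_univ, Fintype.card_prod, Fintype.card_fin, Fintype.card_fin, smul_eq_mul]

end Pool.Agent.BH
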