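import Pool.Agent.helper74.BH.Core

/-!
# liminf A(n) / n^(1/h) for infinite B_h-sets, h odd: the weighted inequality
-/

set_option autoImplicit false

open Finset

namespace Pool.Agent.BH

/-- `s` is in the window `(t - u, t]` -/
def chi (u s t : ℕ) : ℝ := if s ≤ t ∧ t < s + u then 1 else 0

theorem chi_nonneg (u s t : ℕ) : 0 ≤ chi u s t := by
  unfold chi
  split_ifs <;> norm_num

theorem chi_sq (u s t : ℕ) : chi u s t * chi u s t = chi u s t := by
  unfold chi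
  split_ifs <;> norm_num

/-- weighted number of tuples in a window -/
noncomputable def TT (n : ℕ) (I : Finset ℕ) (b : ℕ → ℕ) (w : ℕ → ℝ) (u t : ℕ) : ℝ :=
  ∑ x ∈ tup (n + 1) I, chi u (sg b x) t * √(w (x 0))

theorem TT_sq (n : ℕ) (I : Finset ℕ) (b : ℕ → ℕ) (w : ℕ → ℝ) (hw : ∀ i, 0 ≤ w i) (u t : ℕ) :
    (TT n I b w u t) ^ 2 ≤ (∑ x ∈ tup (n + 1) I, chi u (sg b x) t) * ∑ x ∈ tup (n + 1) I, chi u (sg b x) t * w (x 0) := by
  have h1 := Finset.sum_mul_sq_le_sq_mul_sq (tup (n + 1) I) (fun x => chi u (sg b x) t) (fun x => chi u (sg b x) t * √(w (x 0)))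
  have e1 : ∀ x : Fin (n + 1) → ℕ, chi u (sg b x) t * (chi u (sg b x) t * √(w (x 0))) = chi u (sg b x) t * √(w (x 0)) := by
    intro x
    rw [← mul_assoc, chi_sq]
  have e2 : ∀ x : Fin (n + 1) → ℕ, chi u (sg b x) t ^ 2 = chi u (sg b x) t := by
    intro x
    rw [pow_two, chi_sq]
  have e3 : ∀ x : Fin (n + 1) → ℕ, (chi u (sg b x) t * √(w (x 0))) ^ 2 = chi u (sg b x) t * w (x 0) := by
    intro x
    rw [mul_pow, e2, Real.sq_sqrt (hw _)]
  simp only [e1, e2, e3] at h1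
  exact h1

/-- sums over tuples: the first coordinate -/
theorem sum_tup_succ {m : ℕ} (I : Finset ℕ) (f : (Fin (m + 1) → ℕ) → ℝ) :
    ∑ x ∈ tup (m + 1) I, f x = ∑ q ∈ I, ∑ y ∈ tup m I, f (Fin.cons q y) := by
  rw [← Finset.sum_product']
  refine Finset.sum_bij' (fun x _ => (x 0, Fin.tail x)) (fun p _ => Fin.cons p.1 p.2) ?_ ?_ ?_ ?_ ?_
  · intro x hx
    rw [mem_tup] at hx
    rw [Finset.mem_product]
    exact ⟨hx 0, mem_tup.2 fun i => hx _⟩
  · intro p hp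
    rw [Finset.mem_product] at hp
    rw [mem_tup]
    intro i
    refine Fin.cases ?_ (fun j => ?_) i
    · rw [Fin.cons_zero]
      exact hp.1
    · rw [Fin.cons_succ]
      exact mem_tup.1 hp.2 j
  · intro x _
    exact Fin.cons_self_tail x
  · intro p _
    simp
  · intro x _
    simp

theorem sg_cons (b : ℕ → ℕ) {m : ℕ} (q : ℕ) (y : Fin m → ℕ) : sg b (Fin.cons q y : Fin (m + 1) → ℕ) = b q + sg b y := by
  unfold sg
  rw [Fin.sum_univ_succ]
  simp

theorem card_Qk_eq (n : ℕ) (I : Finset ℕ) (b : ℕ → ℕ) (u : ℕ) (R : Finset ℕ) (q : ℕ) :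
    ((Qk n I b u R q).card : ℝ) = ∑ t ∈ R, (∑ x ∈ tup (n + 1) I, chi u (sg b x) t) * ∑ y ∈ tup n I, chi u (b q + sg b y) t := by
  unfold Qk
  rw [← Finset.sum_boole, Finset.sum_product]
  have h1 : ∀ x : Fin (n + 1) → ℕ, ∑ z ∈ tup n I ×ˢ R, (if (sg b x ≤ z.2 ∧ z.2 < sg b x + u) ∧
      (b q + sg b z.1 ≤ z.2 ∧ z.2 < b q + sg b z.1 + u) then (1 : ℝ) else 0) =
      ∑ t ∈ R, chi u (sg b x) t * ∑ y ∈ tup n I, chi u (b q + sg b y) t := by
    intro x
    rw [Finset.sum_product, Finset.sum_comm]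
    refine Finset.sum_congr rfl fun t _ => ?_
    rw [Finset.mul_sum]
    refine Finset.sum_congr rfl fun y _ => ?_
    unfold chi
    dsimp only
    by_cases h2 : sg b x ≤ t ∧ t < sg b x + u
    · by_cases h3 : b q + sg b y ≤ t ∧ t < b q + sg b y + u
      · rw [if_pos ⟨h2, h3⟩, if_pos h2, if_pos h3, mul_one]
      · rw [if_neg (fun h => h3 h.2), if_neg h3, mul_zero]
    · rw [if_neg (fun h => h2 h.1), if_neg h2, zero_mul]
  rw [Finset.sum_congr rfl fun x _ => h1 x, Finset.sum_comm]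
  refine Finset.sum_congr rfl fun t _ => ?_
  rw [Finset.sum_mul]

theorem sum_NF (n : ℕ) (I : Finset ℕ) (b : ℕ → ℕ) (w : ℕ → ℝ) (u : ℕ) (R : Finset ℕ) :
    ∑ t ∈ R, (∑ x ∈ tup (n + 1) I, chi u (sg b x) t) * ∑ x ∈ tup (n + 1) I, chi u (sg b x) t * w (x 0) =
      ∑ q ∈ I, w q * (Qk n I b u R q).card := by
  have h1 : ∀ t, ∑ x ∈ tup (n + 1) I, chi u (sg b x) t * w (x 0) = ∑ q ∈ I, w q * ∑ y ∈ tup n I, chi u (b q + sg b y) t := by
    intro t
    rw [sum_tup_succ]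
    refine Finset.sum_congr rfl fun q _ => ?_
    rw [Finset.mul_sum]
    refine Finset.sum_congr rfl fun y _ => ?_
    rw [sg_cons, Fin.cons_zero, mul_comm]
  simp only [h1, card_Qk_eq]
  have h2 : ∀ q, w q * ∑ t ∈ R, (∑ x ∈ tup (n + 1) I, chi u (sg b x) t) * ∑ y ∈ tup n I, chi u (b q + sg b y) t =
      ∑ t ∈ R, w q * ((∑ x ∈ tup (n + 1) I, chi u (sg b x) t) * ∑ y ∈ tup n I, chi u (b q + sg b y) t) := by
    intro q
    rw [Finset.mul_sum]
  rw [Finset.sum_congr rfl fun q _ => h2 q, Finset.sum_comm]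
  refine Finset.sum_congr rfl fun t _ => ?_
  rw [Finset.mul_sum]
  refine Finset.sum_congr rfl fun q _ => ?_
  ring

/-- the constants -/
noncomputable def C1 (n : ℕ) : ℝ := (n + 1).factorial * n.factorial
noncomputable def C2 (n : ℕ) : ℝ := (n + 1) * n

theorem C1_pos (n : ℕ) : 0 < C1 n := by
  unfold C1
  have h1 : (0 : ℝ) < (n + 1).factorial := by exact_mod_cast Nat.factorial_pos _
  have h2 : (0 : ℝ) < n.factorial := by exact_mod_cast Nat.factorial_pos _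
  positivity

theorem C2_nonneg (n : ℕ) : 0 ≤ C2 n := by
  unfold C2
  positivity

theorem sum_TT (n : ℕ) (I : Finset ℕ) (b : ℕ → ℕ) (hb : BB n I b) (w : ℕ → ℝ) (hw : ∀ i, 0 ≤ w i) (u : ℕ) (R : Finset ℕ) :
    ∑ t ∈ R, (TT n I b w u t) ^ 2 ≤ (C1 n * (u : ℝ) ^ 2 + C2 n * ((I.card : ℝ) ^ (2 * n) * u)) * ∑ q ∈ I, w q := by
  refine (Finset.sum_le_sum fun t _ => TT_sq n I b w hw u t).trans ?_
  rw [sum_NF, Finset.mul_sum]
  refine Finset.sum_le_sum fun q hq => ?_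
  have h1 : ((Qk n I b u R q).card : ℝ) ≤ C1 n * (u : ℝ) ^ 2 + C2 n * ((I.card : ℝ) ^ (2 * n) * u) := by
    unfold C1 C2
    exact_mod_cast card_Qk hb u R q hq
  have h2 := mul_le_mul_of_nonneg_left h1 (hw q)
  linarith

/-- the main inequality -/
theorem main_ineq (n : ℕ) (I : Finset ℕ) (b : ℕ → ℕ) (hb : BB n I b) (w : ℕ → ℝ) (hw : ∀ i, 0 ≤ w i) (u : ℕ) (hu : 1 ≤ u)
    (κ : ℕ → ℝ) (hκ : Antitone κ) (X : ℕ) (hX : ∀ x ∈ tup (n + 1) I, sg b x ≤ X) :
    2 * ∑ x ∈ tup (n + 1) I, √(w (x 0)) * κ (sg b x) ≤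
      u * κ 0 ^ 2 + ∑ s ∈ range X, κ s ^ 2 + (C1 n + C2 n * (I.card : ℝ) ^ (2 * n) / u) * ∑ q ∈ I, w q := by
  have hu0 : (0 : ℝ) < u := by exact_mod_cast hu
  have h1 := sum_TT n I b hb w hw u (range (u + X))
  -- the sum of the squares of the test function
  have h2 : ∑ t ∈ range (u + X), κ (t - u) ^ 2 = u * κ 0 ^ 2 + ∑ s ∈ range X, κ s ^ 2 := by
    rw [Finset.sum_range_add]
    congr 1
    · rw [Finset.sum_congr rfl (fun t ht => by
        rw [Finset.mem_range] at ht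
        rw [Nat.sub_eq_zero_of_le ht.le] : ∀ t ∈ range u, κ (t - u) ^ 2 = κ 0 ^ 2)]
      rw [Finset.sum_const, Finset.card_range, nsmul_eq_mul]
    · refine Finset.sum_congr rfl fun s _ => ?_
      rw [Nat.add_sub_cancel_left]
  -- the correlation
  have h3 : u * ∑ x ∈ tup (n + 1) I, √(w (x 0)) * κ (sg b x) ≤ ∑ t ∈ range (u + X), κ (t - u) * TT n I b w u t := by
    have e1 : ∑ t ∈ range (u + X), κ (t - u) * TT n I b w u t =
        ∑ x ∈ tup (n + 1) I, √(w (x 0)) * ∑ t ∈ range (u + X), κ (t - u) * chi u (sg b x) t := by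
      unfold TT
      simp only [Finset.mul_sum]
      rw [Finset.sum_comm]
      refine Finset.sum_congr rfl fun x _ => Finset.sum_congr rfl fun t _ => ?_
      ring
    rw [e1, Finset.mul_sum]
    refine Finset.sum_le_sum fun x hx => ?_
    have hs := hX x hx
    have e2 : ∑ t ∈ range (u + X), κ (t - u) * chi u (sg b x) t = ∑ t ∈ Ico (sg b x) (sg b x + u), κ (t - u) := by
      have e3 : Ico (sg b x) (sg b x + u) ⊆ range (u + X) := by
        intro t ht
        rw [Finset.mem_Ico] at ht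
        rw [Finset.mem_range]
        omega
      rw [← Finset.sum_subset e3 (f := fun t => κ (t - u) * chi u (sg b x) t)]
      · refine Finset.sum_congr rfl fun t ht => ?_
        rw [Finset.mem_Ico] at ht
        unfold chi
        rw [if_pos ht, mul_one]
      · intro t _ ht
        rw [Finset.mem_Ico] at ht
        unfold chi
        rw [if_neg ht, mul_zero]
    have e4 : u * κ (sg b x) ≤ ∑ t ∈ range (u + X), κ (t - u) * chi u (sg b x) t := by
      rw [e2]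
      have e5 : ∑ t ∈ Ico (sg b x) (sg b x + u), κ (sg b x) = u * κ (sg b x) := by
        rw [Finset.sum_const, Nat.card_Ico, nsmul_eq_mul]
        congr 2
        omega
      rw [← e5]
      refine Finset.sum_le_sum fun t ht => hκ ?_
      rw [Finset.mem_Ico] at ht
      omega
    calc u * (√(w (x 0)) * κ (sg b x)) = √(w (x 0)) * (u * κ (sg b x)) := by ring
      _ ≤ _ := mul_le_mul_of_nonneg_left e4 (Real.sqrt_nonneg _)
  -- the square
  have h4 : 2 * u * ∑ t ∈ range (u + X), κ (t - u) * TT n I b w u t ≤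
      ∑ t ∈ range (u + X), (TT n I b w u t) ^ 2 + (u : ℝ) ^ 2 * ∑ t ∈ range (u + X), κ (t - u) ^ 2 := by
    rw [Finset.mul_sum, Finset.mul_sum, ← Finset.sum_add_distrib]
    refine Finset.sum_le_sum fun t _ => ?_
    nlinarith [sq_nonneg (TT n I b w u t - u * κ (t - u))]
  rw [h2] at h4
  set S := ∑ x ∈ tup (n + 1) I, √(w (x 0)) * κ (sg b x) with hS
  set W := ∑ q ∈ I, w q with hW
  have h5 : (u : ℝ) ^ 2 * (2 * S) ≤ (u : ℝ) ^ 2 * (u * κ 0 ^ 2 + ∑ s ∈ range X, κ s ^ 2 +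
      (C1 n + C2 n * (I.card : ℝ) ^ (2 * n) / u) * W) := by
    have h6 : (u : ℝ) ^ 2 * ((C1 n + C2 n * (I.card : ℝ) ^ (2 * n) / u) * W) =
        (C1 n * (u : ℝ) ^ 2 + C2 n * ((I.card : ℝ) ^ (2 * n) * u)) * W := by
      field_simp
    have h7 : 2 * (u : ℝ) * (u * S) ≤ 2 * u * ∑ t ∈ range (u + X), κ (t - u) * TT n I b w u t :=
      mul_le_mul_of_nonneg_left h3 (by positivity)
    rw [mul_add, mul_add, h6]
    nlinarith
  exact le_of_mul_le_mul_left h5 (by positivity)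

end Pool.Agent.BH
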