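import Pool.Agent.helper74.BH.Sums3
import Pool.Agent.helper74.B3.Dens

/-!
# liminf A(n) / n^(1/h) for infinite B_h-sets, h odd: the bound for the density
-/

set_option autoImplicit false

open Finset

namespace Pool.Agent.BH

open Pool.Agent.B3 (kap kap_anti kap_sq kap_sum harm_upper)

/-- the kernel comes from the weights and the test function -/
theorem kap_G (p : ℕ) {α c : ℝ} (hα : 0 < α) (hc : 0 ≤ c) {x0 s : ℕ} {x : Fin (p + 2) → ℕ} (hx : 1 ≤ x0)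
    (hx0 : (x0 : ℝ) ≤ (∑ i, (x i : ℝ) ^ hh p) / α ^ hh p) (hs : (s : ℝ) ≤ (∑ i, (x i : ℝ) ^ hh p) / α ^ hh p) :
    c * √(α ^ hh p) * G p x ≤ √(1 / (x 0 : ℝ)) * kap c x0 s := by
  have h0 : (0 : ℝ) < x0 := by exact_mod_cast hx
  have h1 : max (s : ℝ) x0 ≤ (∑ i, (x i : ℝ) ^ hh p) / α ^ hh p := max_le hs hx0
  have h2 : c / √((∑ i, (x i : ℝ) ^ hh p) / α ^ hh p) ≤ kap c x0 s := by
    unfold kap
    exact div_le_div_of_nonneg_left hc (Real.sqrt_pos.2 (lt_of_lt_of_le h0 (le_max_right _ _))) (Real.sqrt_le_sqrt h1)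
  refine le_trans (le_of_eq ?_) (mul_le_mul_of_nonneg_left h2 (Real.sqrt_nonneg _))
  have hZ : 0 < (∑ i, (x i : ℝ) ^ hh p) := by
    by_contra hcon
    push Not at hcon
    have : (∑ i, (x i : ℝ) ^ hh p) / α ^ hh p ≤ 0 := div_nonpos_of_nonpos_of_nonneg hcon (by positivity)
    linarith
  unfold G
  rw [Real.sqrt_div hZ.le, one_div (x 0 : ℝ), Real.sqrt_inv, one_div, one_div]
  have hs1 : 0 < √(∑ i, (x i : ℝ) ^ hh p) := Real.sqrt_pos.2 hZ
  have hs2 : 0 < √(α ^ hh p) := Real.sqrt_pos.2 (by positivity)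
  rw [div_div_eq_mul_div, div_eq_mul_inv]
  ring

/-- the inequality for a window of scales -/
theorem scales (p : ℕ) (b : ℕ → ℕ) (α : ℝ) (hα : 0 < α) (i0 : ℕ) (hb : ∀ i, i0 ≤ i → (b i : ℝ) ≤ (i : ℝ) ^ hh p / α ^ hh p)
    (hB : ∀ m n, 1 ≤ m → BB (p + 1) (Ico m n) b) (c : ℝ) (hc : 0 ≤ c) (K : ℕ) (hK : 2 ≤ K) :
    2 * (c * √(α ^ hh p) * ((hh p : ℕ) / √(cc p) * (Real.log K - 9 / 2 * (p + 1)))) ≤
      c ^ 2 * (3 + Real.log (2 * (p + 2)) + (hh p : ℕ) * Real.log K) + C1 (p + 1) + C2 (p + 1) + C1 (p + 1) * Real.log K := by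
  have hK0 : (2 : ℝ) ≤ K := by exact_mod_cast hK
  have hK1 : (0 : ℝ) < K := by linarith
  have hp0 : (0 : ℝ) ≤ p := Nat.cast_nonneg _
  have hαh : 0 < α ^ hh p := by positivity
  obtain ⟨m, hm⟩ := exists_nat_ge (2 * α ^ hh p * (K : ℝ) ^ hh p + i0 + 1)
  have hp1 : 0 ≤ 2 * α ^ hh p * (K : ℝ) ^ hh p := by positivity
  have hp2 : (0 : ℝ) ≤ i0 := Nat.cast_nonneg _
  have hm1 : 1 ≤ m := by
    have : (1 : ℝ) ≤ m := by linarith
    exact_mod_cast this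
  have hmi : i0 ≤ m := by
    have : (i0 : ℝ) ≤ m := by linarith
    exact_mod_cast this
  have hm0 : (1 : ℝ) ≤ m := by exact_mod_cast hm1
  have hm2 : 2 * α ^ hh p * (K : ℝ) ^ hh p ≤ m := by linarith
  have hK3 : (1 : ℝ) ≤ (K : ℝ) ^ hh p := one_le_pow₀ (by linarith)
  have hhne : hh p ≠ 0 := by unfold hh; omega
  have hm3 : 2 * α ^ hh p ≤ (m : ℝ) ^ hh p := by
    have e1 : 2 * α ^ hh p * 1 ≤ 2 * α ^ hh p * (K : ℝ) ^ hh p := mul_le_mul_of_nonneg_left hK3 (by positivity)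
    have e2 : (m : ℝ) ≤ (m : ℝ) ^ hh p := le_self_pow₀ hm0 hhne
    linarith
  -- the parameters
  set x0 : ℕ := ⌊(m : ℝ) ^ hh p / α ^ hh p⌋₊ with hx0
  set X : ℕ := ⌊(p + 2) * ((K : ℝ) * m) ^ hh p / α ^ hh p⌋₊ with hXd
  set u : ℕ := K ^ (2 * (p + 1) + 1) * m ^ (2 * (p + 1)) with hu
  have hhe : hh p = 2 * (p + 1) + 1 := by unfold hh; ring
  have e3 : 1 ≤ (m : ℝ) ^ hh p / (2 * α ^ hh p) := by
    rw [le_div_iff₀ (by positivity)]
    linarith
  have hx1 : (m : ℝ) ^ hh p / (2 * α ^ hh p) ≤ x0 := by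
    have e1 := Nat.lt_floor_add_one ((m : ℝ) ^ hh p / α ^ hh p)
    rw [← hx0] at e1
    have e2 : (m : ℝ) ^ hh p / α ^ hh p = 2 * ((m : ℝ) ^ hh p / (2 * α ^ hh p)) := by
      field_simp
    linarith
  have hx2 : (x0 : ℝ) ≤ (m : ℝ) ^ hh p / α ^ hh p := Nat.floor_le (by positivity)
  have hx3 : 1 ≤ x0 := by
    have : (1 : ℝ) ≤ x0 := by linarith
    exact_mod_cast this
  have hxp : (0 : ℝ) < x0 := by exact_mod_cast hx3
  have hX1 : (X : ℝ) ≤ (p + 2) * ((K : ℝ) * m) ^ hh p / α ^ hh p := Nat.floor_le (by positivity)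
  have hxX : x0 ≤ X := by
    refine Nat.floor_le_floor ?_
    refine div_le_div_of_nonneg_right ?_ hαh.le
    rw [mul_pow]
    have : 0 ≤ (m : ℝ) ^ hh p := by positivity
    have h2 : (m : ℝ) ^ hh p ≤ (K : ℝ) ^ hh p * (m : ℝ) ^ hh p := le_mul_of_one_le_left this hK3
    have h3 : 1 * ((K : ℝ) ^ hh p * (m : ℝ) ^ hh p) ≤ (p + 2) * ((K : ℝ) ^ hh p * (m : ℝ) ^ hh p) :=
      mul_le_mul_of_nonneg_right (by linarith) (by positivity)
    linarith
  have hu1 : 1 ≤ u := Nat.one_le_iff_ne_zero.2 (by positivity)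
  have hup : (0 : ℝ) < u := by exact_mod_cast hu1
  have hu0 : (u : ℝ) = (K : ℝ) ^ (2 * (p + 1) + 1) * (m : ℝ) ^ (2 * (p + 1)) := by
    rw [hu]
    push_cast
    ring
  have hmK : m ≤ K * m := Nat.le_mul_of_pos_left m (by omega)
  -- the sums of tuples
  have hsum : ∀ x ∈ tup (p + 2) (Ico m (K * m)), (sg b x : ℝ) ≤ (∑ i, (x i : ℝ) ^ hh p) / α ^ hh p := by
    intro x hx
    rw [mem_tup] at hx
    unfold sg
    push_cast
    rw [Finset.sum_div]
    refine Finset.sum_le_sum fun i _ => hb (x i) ?_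
    have := (Finset.mem_Ico.1 (hx i)).1
    omega
  have hpw : ∀ x ∈ tup (p + 2) (Ico m (K * m)), (∑ i, (x i : ℝ) ^ hh p) ≤ (p + 2) * ((K : ℝ) * m) ^ hh p := by
    intro x hx
    rw [mem_tup] at hx
    have e1 : ∑ i, (x i : ℝ) ^ hh p ≤ ∑ _i : Fin (p + 2), ((K : ℝ) * m) ^ hh p := by
      refine Finset.sum_le_sum fun i _ => pow_le_pow_left₀ (Nat.cast_nonneg _) ?_ _
      have := (Finset.mem_Ico.1 (hx i)).2
      exact_mod_cast this.le
    rw [Finset.sum_const, Finset.card_univ, Fintype.card_fin, nsmul_eq_mul] at e1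
    push_cast at e1
    exact e1
  have hlow : ∀ x ∈ tup (p + 2) (Ico m (K * m)), (m : ℝ) ^ hh p ≤ ∑ i, (x i : ℝ) ^ hh p := by
    intro x hx
    rw [mem_tup] at hx
    have e1 : (x 0 : ℝ) ^ hh p ≤ ∑ i, (x i : ℝ) ^ hh p :=
      Finset.single_le_sum (f := fun i => (x i : ℝ) ^ hh p) (fun i _ => by positivity) (Finset.mem_univ 0)
    refine le_trans (pow_le_pow_left₀ (Nat.cast_nonneg _) ?_ _) e1
    have := (Finset.mem_Ico.1 (hx 0)).1
    exact_mod_cast this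
  -- the main inequality
  have h1 := main_ineq (p + 1) (Ico m (K * m)) b (hB m (K * m) hm1) (fun i => 1 / (i : ℝ)) (fun i => by positivity) u hu1
    (kap c x0) (kap_anti hc hx3) X (by
      intro x hx
      refine Nat.le_floor ?_
      refine (hsum x hx).trans ?_
      exact div_le_div_of_nonneg_right (hpw x hx) hαh.le)
  -- lower bound
  have h2 : c * √(α ^ hh p) * ((hh p : ℕ) / √(cc p) * (Real.log K - 9 / 2 * (p + 1))) ≤
      ∑ x ∈ tup (p + 1 + 1) (Ico m (K * m)), √(1 / (x 0 : ℝ)) * kap c x0 (sg b x) := by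
    have e1 := G_sum p m (K * m) hm1 hmK
    have e2 : ((K * m : ℕ) : ℝ) / m = K := by
      push_cast
      field_simp
    rw [e2] at e1
    refine le_trans (mul_le_mul_of_nonneg_left e1 (by positivity)) ?_
    rw [Finset.mul_sum]
    refine Finset.sum_le_sum fun x hx => ?_
    refine kap_G p hα hc hx3 (hx2.trans ?_) (hsum x hx)
    exact div_le_div_of_nonneg_right (hlow x hx) hαh.le
  -- upper bounds
  have hlog : 0 ≤ Real.log K := Real.log_nonneg (by linarith)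
  have h3 : (u : ℝ) * kap c x0 0 ^ 2 ≤ c ^ 2 := by
    rw [kap_sq c hx3, Nat.cast_zero, max_eq_right hxp.le, hu0]
    have e1 : (K : ℝ) ^ (2 * (p + 1) + 1) * (m : ℝ) ^ (2 * (p + 1)) * (1 / (x0 : ℝ)) ≤ 1 := by
      rw [mul_one_div, div_le_one hxp]
      refine le_trans ?_ hx1
      rw [le_div_iff₀ (by positivity), hhe]
      have e2 : (m : ℝ) ^ (2 * (p + 1) + 1) = m * (m : ℝ) ^ (2 * (p + 1)) := by ring
      rw [e2]
      have e4 : 0 ≤ (m : ℝ) ^ (2 * (p + 1)) := by positivity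
      rw [hhe] at hm2
      have e5 := mul_le_mul_of_nonneg_right hm2 e4
      linarith
    calc (K : ℝ) ^ (2 * (p + 1) + 1) * (m : ℝ) ^ (2 * (p + 1)) * (c ^ 2 * (1 / (x0 : ℝ))) =
        c ^ 2 * ((K : ℝ) ^ (2 * (p + 1) + 1) * (m : ℝ) ^ (2 * (p + 1)) * (1 / (x0 : ℝ))) := by ring
      _ ≤ c ^ 2 * 1 := mul_le_mul_of_nonneg_left e1 (sq_nonneg c)
      _ = c ^ 2 := mul_one _
  have h4 : ∑ s ∈ range X, kap c x0 s ^ 2 ≤ c ^ 2 * (2 + Real.log (2 * (p + 2)) + (hh p : ℕ) * Real.log K) := by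
    refine (kap_sum c hx3 hxX).trans (mul_le_mul_of_nonneg_left ?_ (sq_nonneg c))
    have e1 : (X : ℝ) / x0 ≤ 2 * (p + 2) * (K : ℝ) ^ hh p := by
      rw [div_le_iff₀ hxp]
      have e2 : (p + 2) * ((K : ℝ) * m) ^ hh p / α ^ hh p = 2 * (p + 2) * (K : ℝ) ^ hh p * ((m : ℝ) ^ hh p / (2 * α ^ hh p)) := by
        rw [mul_pow]
        field_simp
      refine hX1.trans ?_
      rw [e2]
      exact mul_le_mul_of_nonneg_left hx1 (by positivity)
    have hXp : (0 : ℝ) < X := lt_of_lt_of_le hxp (by exact_mod_cast hxX)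
    have e3 := Real.log_le_log (div_pos hXp hxp) e1
    rw [Real.log_mul (by positivity) (by positivity), Real.log_pow] at e3
    linarith
  have h5 : ∑ k ∈ Ico m (K * m), 1 / (k : ℝ) ≤ 1 + Real.log K := by
    have e1 := harm_upper m (K * m) hm1 hmK
    have e2 : ((K * m : ℕ) : ℝ) / m = K := by
      push_cast
      field_simp
    rwa [e2] at e1
  have h6 : C2 (p + 1) * (((Ico m (K * m)).card : ℕ) : ℝ) ^ (2 * (p + 1)) / u ≤ C2 (p + 1) / K := by
    have e1 : (((Ico m (K * m)).card : ℕ) : ℝ) ≤ K * m := by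
      rw [Nat.card_Ico]
      have : K * m - m ≤ K * m := Nat.sub_le _ _
      exact_mod_cast this
    have e2 : (((Ico m (K * m)).card : ℕ) : ℝ) ^ (2 * (p + 1)) ≤ ((K : ℝ) * m) ^ (2 * (p + 1)) :=
      pow_le_pow_left₀ (Nat.cast_nonneg _) e1 _
    rw [div_le_div_iff₀ hup hK1, hu0]
    have hC2 := C2_nonneg (p + 1)
    calc C2 (p + 1) * (((Ico m (K * m)).card : ℕ) : ℝ) ^ (2 * (p + 1)) * K ≤
        C2 (p + 1) * ((K : ℝ) * m) ^ (2 * (p + 1)) * K :=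
          mul_le_mul_of_nonneg_right (mul_le_mul_of_nonneg_left e2 hC2) hK1.le
      _ = C2 (p + 1) * ((K : ℝ) ^ (2 * (p + 1) + 1) * (m : ℝ) ^ (2 * (p + 1))) := by
        rw [mul_pow, pow_succ]
        ring
  have h7 : (C1 (p + 1) + C2 (p + 1) * (((Ico m (K * m)).card : ℕ) : ℝ) ^ (2 * (p + 1)) / u) * ∑ k ∈ Ico m (K * m), 1 / (k : ℝ) ≤
      C1 (p + 1) + C2 (p + 1) + C1 (p + 1) * Real.log K := by
    have hC1 := C1_pos (p + 1)
    have hC2 := C2_nonneg (p + 1)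
    have e1 : 0 ≤ ∑ k ∈ Ico m (K * m), 1 / (k : ℝ) := Finset.sum_nonneg fun _ _ => by positivity
    have e2 : 1 + Real.log K ≤ K := by
      have := Real.log_le_sub_one_of_pos hK1
      linarith
    calc (C1 (p + 1) + C2 (p + 1) * (((Ico m (K * m)).card : ℕ) : ℝ) ^ (2 * (p + 1)) / u) * ∑ k ∈ Ico m (K * m), 1 / (k : ℝ)
        ≤ (C1 (p + 1) + C2 (p + 1) / K) * ∑ k ∈ Ico m (K * m), 1 / (k : ℝ) := mul_le_mul_of_nonneg_right (by linarith) e1
      _ ≤ (C1 (p + 1) + C2 (p + 1) / K) * (1 + Real.log K) := mul_le_mul_of_nonneg_left h5 (by positivity)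
      _ = C1 (p + 1) + C1 (p + 1) * Real.log K + C2 (p + 1) * ((1 + Real.log K) / K) := by ring
      _ ≤ C1 (p + 1) + C1 (p + 1) * Real.log K + C2 (p + 1) * 1 := by
        have e3 : (1 + Real.log K) / K ≤ 1 := (div_le_one hK1).2 e2
        have := mul_le_mul_of_nonneg_left e3 hC2
        linarith
      _ = C1 (p + 1) + C2 (p + 1) + C1 (p + 1) * Real.log K := by ring
  have h8 : c ^ 2 + c ^ 2 * (2 + Real.log (2 * (p + 2)) + (hh p : ℕ) * Real.log K) =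
      c ^ 2 * (3 + Real.log (2 * (p + 2)) + (hh p : ℕ) * Real.log K) := by ring
  linarith

/-- the bound for the density -/
theorem dens (p : ℕ) (b : ℕ → ℕ) (α : ℝ) (hα : 0 < α) (i0 : ℕ) (hb : ∀ i, i0 ≤ i → (b i : ℝ) ≤ (i : ℝ) ^ hh p / α ^ hh p)
    (hB : ∀ m n, 1 ≤ m → BB (p + 1) (Ico m n) b) : (hh p : ℕ) * α ^ hh p ≤ C1 (p + 1) * cc p := by
  by_contra hcon
  push Not at hcon
  have hcc := cc_ge p
  have hcc0 : 0 < cc p := by linarith
  have hh0 : (0 : ℝ) < ((hh p : ℕ) : ℝ) := by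
    unfold hh
    push_cast
    positivity
  have hC1 := C1_pos (p + 1)
  have hC2 := C2_nonneg (p + 1)
  set β := √(α ^ hh p) with hβ
  have hβ0 : 0 ≤ β := Real.sqrt_nonneg _
  have hβ2 : β ^ 2 = α ^ hh p := Real.sq_sqrt (by positivity)
  set A := ((hh p : ℕ) : ℝ) / √(cc p) with hA
  have hA0 : 0 ≤ A := by positivity
  have hA2 : A ^ 2 = ((hh p : ℕ) : ℝ) ^ 2 / cc p := by
    rw [hA, div_pow, Real.sq_sqrt hcc0.le]
  set c := A * β / ((hh p : ℕ) : ℝ) with hc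
  have hc0 : 0 ≤ c := by positivity
  set δ := 2 * (c * β * A) - c ^ 2 * ((hh p : ℕ) : ℝ) - C1 (p + 1) with hδ
  have hd : 0 < δ := by
    have e1 : δ = A ^ 2 * β ^ 2 / ((hh p : ℕ) : ℝ) - C1 (p + 1) := by
      rw [hδ, hc]
      field_simp
      ring
    have e2 : A ^ 2 * β ^ 2 / ((hh p : ℕ) : ℝ) = ((hh p : ℕ) : ℝ) * α ^ hh p / cc p := by
      rw [hA2, hβ2]
      field_simp
    rw [e1, e2, sub_pos, lt_div_iff₀ hcc0]
    exact hcon
  set D := c ^ 2 * (3 + Real.log (2 * ((p : ℝ) + 2))) + C1 (p + 1) + C2 (p + 1) + 2 * (c * β * A) * (9 / 2 * (p + 1)) with hD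
  obtain ⟨K, hK⟩ := exists_nat_ge (Real.exp (D / δ + 1) + 2)
  have hK2 : 2 ≤ K := by
    have := Real.exp_pos (D / δ + 1)
    have h2 : (2 : ℝ) ≤ K := by linarith
    exact_mod_cast h2
  have h1 := scales p b α hα i0 hb hB c hc0 K hK2
  rw [← hβ, ← hA] at h1
  have h2 : D / δ + 1 ≤ Real.log K := by
    rw [Real.le_log_iff_exp_le (by have : (2 : ℝ) ≤ K := (by exact_mod_cast hK2); linarith)]
    linarith
  have h3 : D + δ ≤ δ * Real.log K := by
    have := mul_le_mul_of_nonneg_left h2 hd.le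
    have e1 : δ * (D / δ + 1) = D + δ := by
      field_simp
    rwa [e1] at this
  have h4 : δ * Real.log K = 2 * (c * β * A) * Real.log K - c ^ 2 * ((hh p : ℕ) : ℝ) * Real.log K - C1 (p + 1) * Real.log K := by
    rw [hδ]
    ring
  have h5 : 2 * (c * β * (A * (Real.log K - 9 / 2 * (p + 1)))) =
      2 * (c * β * A) * Real.log K - 2 * (c * β * A) * (9 / 2 * (p + 1)) := by ring
  rw [h4] at h3
  rw [h5] at h1
  have h6 : c ^ 2 * (3 + Real.log (2 * ((p : ℝ) + 2)) + ((hh p : ℕ) : ℝ) * Real.log K) =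
      c ^ 2 * (3 + Real.log (2 * ((p : ℝ) + 2))) + c ^ 2 * ((hh p : ℕ) : ℝ) * Real.log K := by ring
  rw [h6] at h1
  linarith

end Pool.Agent.BH
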