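import Pool.Agent.helper74.BH.Core2
import Pool.Agent.helper74.B3.Sums

/-!
# liminf A(n) / n^(1/h) for infinite B_h-sets, h odd: lower bound for the sum over tuples
-/

set_option autoImplicit false

open Finset

namespace Pool.Agent.BH

/-! ## one variable -/

theorem pow_succ_ge (x : ℝ) (hx : 0 ≤ x) (r : ℕ) : x ^ (r + 1) + (r + 1) * x ^ r ≤ (x + 1) ^ (r + 1) := by
  induction r with
  | zero => simp
  | succ r ih =>
    have h1 : (x + 1) ^ (r + 1 + 1) = (x + 1) * (x + 1) ^ (r + 1) := by ring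
    have h2 := mul_le_mul_of_nonneg_left ih (by linarith : 0 ≤ x + 1)
    rw [h1]
    refine le_trans ?_ h2
    have h3 : 0 ≤ x ^ r := by positivity
    have h4 : (0 : ℝ) ≤ r := Nat.cast_nonneg _
    push_cast
    have e : (x + 1) * (x ^ (r + 1) + (r + 1) * x ^ r) - (x ^ (r + 1 + 1) + ((r : ℝ) + 1 + 1) * x ^ (r + 1)) = (r + 1) * x ^ r := by ring
    nlinarith [mul_nonneg (by linarith : (0 : ℝ) ≤ r + 1) h3]

theorem sum_pow_le (r M : ℕ) : ∑ q ∈ range M, (q : ℝ) ^ r ≤ (M : ℝ) ^ (r + 1) / (r + 1) := by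
  have hr : (0 : ℝ) < r + 1 := by positivity
  induction M with
  | zero =>
    rw [Finset.range_zero, Finset.sum_empty]
    positivity
  | succ M ih =>
    rw [Finset.sum_range_succ]
    have h1 := pow_succ_ge (M : ℝ) (Nat.cast_nonneg _) r
    have h2 : (M : ℝ) ^ (r + 1) / (r + 1) + (M : ℝ) ^ r ≤ ((M : ℝ) + 1) ^ (r + 1) / (r + 1) := by
      rw [div_add' _ _ _ hr.ne', div_le_div_iff_of_pos_right hr]
      linarith
    push_cast
    linarith

theorem sum_ratio_le (r m M : ℕ) (hM : 1 ≤ M) : ∑ q ∈ Ico m M, ((q : ℝ) / M) ^ r ≤ M * (1 / (r + 1)) := by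
  have hM0 : (0 : ℝ) < M := by exact_mod_cast hM
  have h1 : ∑ q ∈ Ico m M, ((q : ℝ) / M) ^ r ≤ ∑ q ∈ range M, ((q : ℝ) / M) ^ r := by
    refine Finset.sum_le_sum_of_subset_of_nonneg ?_ fun q _ _ => by positivity
    intro q hq
    rw [Finset.mem_Ico] at hq
    exact Finset.mem_range.2 hq.2
  refine h1.trans ?_
  have h2 : ∑ q ∈ range M, ((q : ℝ) / M) ^ r = (∑ q ∈ range M, (q : ℝ) ^ r) / (M : ℝ) ^ r := by
    rw [Finset.sum_div]
    exact Finset.sum_congr rfl fun q _ => div_pow _ _ _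
  rw [h2, div_le_iff₀ (by positivity)]
  refine (sum_pow_le r M).trans (le_of_eq ?_)
  have : (0 : ℝ) < r + 1 := by positivity
  field_simp
  ring

theorem sqrt_step (x : ℝ) (hx : 0 < x) : 1 / √(x + 1) ≤ 2 * (√(x + 1) - √x) ∧ 2 * (√(x + 1) - √x) ≤ 1 / √x := by
  set a := √x with ha
  set d := √(x + 1) with hd
  have ha0 : 0 < a := Real.sqrt_pos.2 hx
  have hd0 : 0 < d := Real.sqrt_pos.2 (by linarith)
  have ha2 : a ^ 2 = x := Real.sq_sqrt hx.le
  have hd2 : d ^ 2 = x + 1 := Real.sq_sqrt (by linarith)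
  have hle : a ≤ d := Real.sqrt_le_sqrt (by linarith)
  have h1 : (d - a) * (d + a) = 1 := by nlinarith
  constructor
  · rw [div_le_iff₀ hd0]
    nlinarith [mul_nonneg (sub_nonneg.2 hle) (sub_nonneg.2 hle)]
  · rw [le_div_iff₀ ha0]
    nlinarith [mul_nonneg (sub_nonneg.2 hle) (sub_nonneg.2 hle)]

theorem B_upper (m M : ℕ) (hm : 1 ≤ m) (hmM : m ≤ M) : ∑ q ∈ Ico m M, 1 / √(q : ℝ) ≤ 2 * √(M : ℝ) := by
  have key : ∑ q ∈ Ico m (M + 1), 1 / √(q : ℝ) ≤ 2 * √(M : ℝ) := by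
    induction M, hmM using Nat.le_induction with
    | base =>
      rw [Finset.sum_Ico_succ_top le_rfl, Finset.Ico_self, Finset.sum_empty, zero_add]
      have hm0 : (1 : ℝ) ≤ m := by exact_mod_cast hm
      have h1 : 1 ≤ √(m : ℝ) := by
        rw [show (1 : ℝ) = √1 by rw [Real.sqrt_one]]
        exact Real.sqrt_le_sqrt hm0
      rw [div_le_iff₀ (by linarith)]
      nlinarith
    | succ M hM ih =>
      rw [Finset.sum_Ico_succ_top (by omega)]
      have h1 := (sqrt_step (M : ℝ) (by exact_mod_cast (by omega : 0 < M))).1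
      push_cast
      linarith
  have h2 : ∑ q ∈ Ico m M, 1 / √(q : ℝ) ≤ ∑ q ∈ Ico m (M + 1), 1 / √(q : ℝ) := by
    refine Finset.sum_le_sum_of_subset_of_nonneg ?_ fun q _ _ => by positivity
    exact Finset.Ico_subset_Ico le_rfl (Nat.le_succ _)
  exact h2.trans key

theorem B_lower (m M : ℕ) (hm : 1 ≤ m) (hmM : m ≤ M) : 2 * (√(M : ℝ) - √(m : ℝ)) ≤ ∑ q ∈ Ico m M, 1 / √(q : ℝ) := by
  induction M, hmM using Nat.le_induction with
  | base =>
    rw [Finset.Ico_self, Finset.sum_empty, sub_self, mul_zero]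
  | succ M hM ih =>
    rw [Finset.sum_Ico_succ_top hM]
    have h1 := (sqrt_step (M : ℝ) (by exact_mod_cast (by omega : 0 < M))).2
    push_cast
    linarith

/-- the weighted power sum -/
theorem Bh_upper (h m M : ℕ) (hh : 1 ≤ h) (hm : 1 ≤ m) (hmM : m ≤ M) :
    ∑ q ∈ Ico m M, 1 / √(q : ℝ) * ((q : ℝ) / M) ^ h ≤ √(M : ℝ) / h := by
  obtain ⟨g, rfl⟩ : ∃ g, h = g + 1 := ⟨h - 1, by omega⟩
  have hM0 : (0 : ℝ) < M := by exact_mod_cast (by omega : 0 < M)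
  have hsM : 0 < √(M : ℝ) := Real.sqrt_pos.2 hM0
  have h1 : ∀ q ∈ Ico m M, 1 / √(q : ℝ) * ((q : ℝ) / M) ^ (g + 1) ≤ 1 / √(M : ℝ) * ((q : ℝ) / M) ^ g := by
    intro q hq
    rw [Finset.mem_Ico] at hq
    have hq0 : (0 : ℝ) < q := by exact_mod_cast (by omega : 0 < q)
    have hsq : 0 < √(q : ℝ) := Real.sqrt_pos.2 hq0
    have hle : √(q : ℝ) ≤ √(M : ℝ) := Real.sqrt_le_sqrt (by exact_mod_cast hq.2.le)
    have hqq : √(q : ℝ) * √(q : ℝ) = q := Real.mul_self_sqrt hq0.le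
    have hMM : √(M : ℝ) * √(M : ℝ) = M := Real.mul_self_sqrt hM0.le
    have e1 : 1 / √(q : ℝ) * ((q : ℝ) / M) ^ (g + 1) = (1 / √(q : ℝ) * ((q : ℝ) / M)) * ((q : ℝ) / M) ^ g := by ring
    rw [e1]
    refine mul_le_mul_of_nonneg_right ?_ (by positivity)
    have e2 : 1 / √(q : ℝ) * ((q : ℝ) / M) = √(q : ℝ) / M := by
      rw [div_mul_div_comm, one_mul, div_eq_div_iff (by positivity) hM0.ne']
      calc (q : ℝ) * M = (√(q : ℝ) * √(q : ℝ)) * M := by rw [hqq]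
        _ = √(q : ℝ) * (√(q : ℝ) * M) := by ring
    rw [e2, div_le_div_iff₀ hM0 hsM, one_mul]
    calc √(q : ℝ) * √(M : ℝ) ≤ √(M : ℝ) * √(M : ℝ) := mul_le_mul_of_nonneg_right hle hsM.le
      _ = M := hMM
  refine (Finset.sum_le_sum h1).trans ?_
  rw [← Finset.mul_sum]
  have h2 := sum_ratio_le g m M (by omega)
  refine (mul_le_mul_of_nonneg_left h2 (by positivity)).trans (le_of_eq ?_)
  have hMM : √(M : ℝ) * √(M : ℝ) = M := Real.mul_self_sqrt hM0.le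
  have hg : (0 : ℝ) < (g : ℝ) + 1 := by positivity
  push_cast
  rw [div_mul_eq_mul_div, one_mul, mul_one_div, div_div, div_eq_div_iff (by positivity) hg.ne']
  calc (M : ℝ) * (g + 1) = (√(M : ℝ) * √(M : ℝ)) * (g + 1) := by rw [hMM]
    _ = √(M : ℝ) * ((g + 1) * √(M : ℝ)) := by ring

/-- the tangent line -/
theorem tangent (z c : ℝ) (hz : 0 < z) (hc : 0 < c) : 1 / √c * (3 / 2 - z / (2 * c)) ≤ 1 / √z := by
  set a := √z with ha
  set d := √c with hd
  have ha0 : 0 < a := Real.sqrt_pos.2 hz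
  have hd0 : 0 < d := Real.sqrt_pos.2 hc
  have ha2 : a ^ 2 = z := Real.sq_sqrt hz.le
  have hd2 : d ^ 2 = c := Real.sq_sqrt hc.le
  rw [← ha2, ← hd2]
  have e : 1 / d * (3 / 2 - a ^ 2 / (2 * d ^ 2)) = (3 * d ^ 2 - a ^ 2) / (2 * d ^ 3) := by
    field_simp
  rw [e, div_le_div_iff₀ (by positivity) ha0]
  nlinarith [mul_nonneg (sq_nonneg (a - d)) (by linarith : 0 ≤ a + 2 * d)]

/-! ## sums over tuples -/

theorem sum_Y_le (J : Finset ℕ) (f : ℕ → ℝ) (hf : ∀ q, 0 ≤ f q) (M F : ℝ) (hM : 0 ≤ M) (hJ : (J.card : ℝ) ≤ M)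
    (hs : ∑ q ∈ J, f q ≤ M * F) (r : ℕ) : ∑ y ∈ tup r J, ∑ j, f (y j) ≤ r * M ^ r * F := by
  induction r with
  | zero =>
    simp
  | succ r ih =>
    rw [sum_tup_succ]
    have e1 : ∀ q ∈ J, ∑ y ∈ tup r J, ∑ j, f ((Fin.cons q y : Fin (r + 1) → ℕ) j) =
        (J.card : ℝ) ^ r * f q + ∑ y ∈ tup r J, ∑ j, f (y j) := by
      intro q _
      have e2 : ∀ y ∈ tup r J, ∑ j, f ((Fin.cons q y : Fin (r + 1) → ℕ) j) = f q + ∑ j, f (y j) := by
        intro y _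
        rw [Fin.sum_univ_succ]
        simp
      rw [Finset.sum_congr rfl e2, Finset.sum_add_distrib, Finset.sum_const, card_tup, nsmul_eq_mul]
      push_cast
      ring
    rw [Finset.sum_congr rfl e1, Finset.sum_add_distrib, ← Finset.mul_sum, Finset.sum_const, nsmul_eq_mul]
    have h0 : 0 ≤ ∑ y ∈ tup r J, ∑ j, f (y j) := Finset.sum_nonneg fun y _ => Finset.sum_nonneg fun j _ => hf _
    have hc0 : (0 : ℝ) ≤ J.card := Nat.cast_nonneg _
    have h1 : (J.card : ℝ) ^ r * ∑ q ∈ J, f q ≤ M ^ r * (M * F) :=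
      mul_le_mul (pow_le_pow_left₀ hc0 hJ r) hs (Finset.sum_nonneg fun q _ => hf q) (by positivity)
    have h2 : (J.card : ℝ) * ∑ y ∈ tup r J, ∑ j, f (y j) ≤ M * (r * M ^ r * F) := mul_le_mul hJ ih h0 hM
    refine (add_le_add h1 h2).trans (le_of_eq ?_)
    push_cast
    ring

end Pool.Agent.BH
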