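import Pool.Agent.helper74.BH.Sums

/-!
# liminf A(n) / n^(1/h) for infinite B_h-sets, h odd: lower bound for the sum over tuples, part 2
-/

set_option autoImplicit false

open Finset

namespace Pool.Agent.BH

/-- the constant `c = (3 k - 1) / (2 k)`, `k = p + 2` -/
noncomputable def cc (p : ℕ) : ℝ := (3 * p + 5) / (2 * (p + 2))

/-- the exponent `h = 2 k - 1` -/
def hh (p : ℕ) : ℕ := 2 * p + 3

theorem cc_ge (p : ℕ) : 1 ≤ cc p := by
  unfold cc
  have hp : (0 : ℝ) ≤ p := Nat.cast_nonneg _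
  rw [le_div_iff₀ (by positivity)]
  linarith

/-- the kernel -/
noncomputable def G (p : ℕ) (x : Fin (p + 2) → ℕ) : ℝ := 1 / √(x 0 : ℝ) * (1 / √(∑ i, (x i : ℝ) ^ hh p))

theorem G_nonneg (p : ℕ) (x : Fin (p + 2) → ℕ) : 0 ≤ G p x := by
  unfold G
  positivity

/-- the relative power sum -/
noncomputable def Yh (p M : ℕ) {r : ℕ} (y : Fin r → ℕ) : ℝ := ∑ j, ((y j : ℝ) / M) ^ hh p

theorem ins_le {n M : ℕ} {r : Fin (n + 1)} {y : Fin n → ℕ} (hy : ∀ j, y j < M) (l : Fin (n + 1)) :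
    (Fin.insertNth r M y : Fin (n + 1) → ℕ) l = M ∨ (Fin.insertNth r M y : Fin (n + 1) → ℕ) l < M := by
  by_cases h : l = r
  · left
    rw [h, Fin.insertNth_apply_same]
  · right
    obtain ⟨j, hj⟩ := Fin.exists_succAbove_eq h
    rw [← hj, Fin.insertNth_apply_succAbove]
    exact hy j

/-- the tuples with a unique largest coordinate -/
theorem decomp (n m N : ℕ) (f : (Fin (n + 1) → ℕ) → ℝ) (hf : ∀ x, 0 ≤ f x) :
    ∑ M ∈ Ico m N, ∑ r : Fin (n + 1), ∑ y ∈ tup n (Ico m M), f (Fin.insertNth r M y) ≤ ∑ x ∈ tup (n + 1) (Ico m N), f x := by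
  classical
  have e1 : ∀ M ∈ Ico m N, ∑ r : Fin (n + 1), ∑ y ∈ tup n (Ico m M), f (Fin.insertNth r M y) =
      ∑ z ∈ (univ : Finset (Fin (n + 1))) ×ˢ tup n (Ico m M), f (Fin.insertNth z.1 M z.2) := by
    intro M _
    rw [Finset.sum_product]
  rw [Finset.sum_congr rfl e1, Finset.sum_sigma']
  set D : Finset (Σ _ : ℕ, Fin (n + 1) × (Fin n → ℕ)) :=
    (Ico m N).sigma fun M => (univ : Finset (Fin (n + 1))) ×ˢ tup n (Ico m M) with hD
  have hmem : ∀ z ∈ D, m ≤ z.1 ∧ z.1 < N ∧ ∀ j, m ≤ z.2.2 j ∧ z.2.2 j < z.1 := by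
    intro z hz
    rw [hD, Finset.mem_sigma, Finset.mem_Ico, Finset.mem_product, mem_tup] at hz
    exact ⟨hz.1.1, hz.1.2, fun j => Finset.mem_Ico.1 (hz.2.2 j)⟩
  have hinj : Set.InjOn (fun z : Σ _ : ℕ, Fin (n + 1) × (Fin n → ℕ) => (Fin.insertNth z.2.1 z.1 z.2.2 : Fin (n + 1) → ℕ)) D := by
    intro z hz z' hz' h
    have h1 := hmem z hz
    have h2 := hmem z' hz'
    obtain ⟨M, r, y⟩ := z
    obtain ⟨M', r', y'⟩ := z'
    simp only at h h1 h2
    have h3 := ins_le (r := r) (fun j => (h1.2.2 j).2)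
    have h4 := ins_le (r := r') (fun j => (h2.2.2 j).2)
    have h5 : M ≤ M' := by
      have e : (Fin.insertNth r M y : Fin (n + 1) → ℕ) r = M := Fin.insertNth_apply_same _ _ _
      have e2 := h4 r
      rw [← h, e] at e2
      omega
    have h6 : M' ≤ M := by
      have e : (Fin.insertNth r' M' y' : Fin (n + 1) → ℕ) r' = M' := Fin.insertNth_apply_same _ _ _
      have e2 := h3 r'
      rw [h, e] at e2
      omega
    have h7 : M = M' := le_antisymm h5 h6
    subst h7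
    have h8 : r = r' := by
      by_contra hne
      obtain ⟨j, hj⟩ := Fin.exists_succAbove_eq hne
      have e : (Fin.insertNth r M y : Fin (n + 1) → ℕ) r = M := Fin.insertNth_apply_same _ _ _
      rw [h, ← hj, Fin.insertNth_apply_succAbove] at e
      have := (h2.2.2 j).2
      omega
    subst h8
    have h9 : y = y' := by
      funext j
      have e := congrFun h (r.succAbove j)
      rwa [Fin.insertNth_apply_succAbove, Fin.insertNth_apply_succAbove] at e
    subst h9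
    rfl
  rw [← Finset.sum_image (f := f) (s := D) (g := fun z => (Fin.insertNth z.2.1 z.1 z.2.2 : Fin (n + 1) → ℕ)) hinj]
  refine Finset.sum_le_sum_of_subset_of_nonneg ?_ fun x _ _ => hf x
  intro x hx
  rw [Finset.mem_image] at hx
  obtain ⟨z, hz, rfl⟩ := hx
  have h1 := hmem z hz
  rw [mem_tup]
  intro l
  rw [Finset.mem_Ico]
  by_cases hl : l = z.2.1
  · rw [hl, Fin.insertNth_apply_same]
    exact ⟨h1.1, h1.2.1⟩
  · obtain ⟨j, hj⟩ := Fin.exists_succAbove_eq hl
    rw [← hj, Fin.insertNth_apply_succAbove]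
    have := h1.2.2 j
    omega

/-- the kernel at a tuple with the largest coordinate `M` -/
theorem G_ins (p M : ℕ) (hM : 1 ≤ M) (r : Fin (p + 2)) (y : Fin (p + 1) → ℕ) :
    1 / √(((Fin.insertNth r M y : Fin (p + 2) → ℕ) 0 : ℕ) : ℝ) *
      (1 / √((M : ℝ) ^ hh p) * (1 / √(cc p) * (3 / 2 - (1 + Yh p M y) / (2 * cc p)))) ≤
      G p (Fin.insertNth r M y) := by
  have hM0 : (0 : ℝ) < M := by exact_mod_cast hM
  have hc := cc_ge p
  have hY : 0 ≤ Yh p M y := by
    unfold Yh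
    positivity
  have e1 : ∑ i, (((Fin.insertNth r M y : Fin (p + 2) → ℕ) i : ℕ) : ℝ) ^ hh p = (M : ℝ) ^ hh p * (1 + Yh p M y) := by
    rw [Fin.sum_univ_succAbove _ r, Fin.insertNth_apply_same]
    have e2 : ∀ j : Fin (p + 1), (((Fin.insertNth r M y : Fin (p + 2) → ℕ) (r.succAbove j) : ℕ) : ℝ) ^ hh p =
        (M : ℝ) ^ hh p * ((y j : ℝ) / M) ^ hh p := by
      intro j
      rw [Fin.insertNth_apply_succAbove, div_pow]
      field_simp
    rw [Finset.sum_congr rfl fun j _ => e2 j, ← Finset.mul_sum, mul_add, mul_one]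
    rfl
  unfold G
  refine mul_le_mul_of_nonneg_left ?_ (by positivity)
  rw [e1, Real.sqrt_mul (by positivity), ← one_div_mul_one_div]
  refine mul_le_mul_of_nonneg_left ?_ (by positivity)
  exact tangent _ _ (by linarith) (by linarith)

end Pool.Agent.BH
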