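import Pool.Agent.helper74.BH.Sums2

/-!
# liminf A(n) / n^(1/h) for infinite B_h-sets, h odd: lower bound for the sum over tuples, part 3
-/

set_option autoImplicit false

open Finset

namespace Pool.Agent.BH

/-- Bernoulli -/
theorem bern (ρ : ℝ) (h0 : 0 ≤ ρ) (h1 : ρ ≤ 1) (r : ℕ) : 1 - r * ρ ≤ (1 - ρ ^ 2) ^ r := by
  have h2 : ρ ^ 2 ≤ ρ := by nlinarith
  have h3 := one_add_mul_le_pow (a := -ρ ^ 2) (by nlinarith) r
  have h4 : (0 : ℝ) ≤ r := Nat.cast_nonneg _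
  have h5 : 1 + (r : ℝ) * -ρ ^ 2 ≥ 1 - r * ρ := by nlinarith
  have h6 : (1 + -ρ ^ 2) ^ r = (1 - ρ ^ 2) ^ r := by ring
  linarith

/-- the sum over the tuples below `M`, first kind -/
theorem sum1 (p m M : ℕ) (hm : 1 ≤ m) (hmM : m ≤ M) :
    (3 / 2 - 1 / (2 * cc p)) * ((Ico m M).card : ℝ) ^ (p + 1) - 1 / (2 * cc p) * ((p + 1) * (M : ℝ) ^ (p + 1) * (1 / ((hh p : ℕ) + 1))) ≤
      ∑ y ∈ tup (p + 1) (Ico m M), (3 / 2 - (1 + Yh p M y) / (2 * cc p)) := by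
  have hc := cc_ge p
  have hM0 : (0 : ℝ) < M := by exact_mod_cast (by omega : 0 < M)
  have e1 : ∑ y ∈ tup (p + 1) (Ico m M), (3 / 2 - (1 + Yh p M y) / (2 * cc p)) =
      (3 / 2 - 1 / (2 * cc p)) * ((Ico m M).card : ℝ) ^ (p + 1) - 1 / (2 * cc p) * ∑ y ∈ tup (p + 1) (Ico m M), Yh p M y := by
    have e2 : ∀ y ∈ tup (p + 1) (Ico m M), (3 / 2 - (1 + Yh p M y) / (2 * cc p)) =
        (3 / 2 - 1 / (2 * cc p)) - 1 / (2 * cc p) * Yh p M y := by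
      intro y _
      ring
    rw [Finset.sum_congr rfl e2, Finset.sum_sub_distrib, Finset.sum_const, card_tup, nsmul_eq_mul, ← Finset.mul_sum]
    push_cast
    ring
  rw [e1]
  have h1 := sum_Y_le (Ico m M) (fun q => ((q : ℝ) / M) ^ hh p) (fun q => by positivity) (M : ℝ) (1 / ((hh p : ℕ) + 1)) hM0.le
    (by
      rw [Nat.card_Ico]
      have : M - m ≤ M := Nat.sub_le _ _
      exact_mod_cast this)
    (sum_ratio_le (hh p) m M (by omega)) (p + 1)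
  have h2 : ∑ y ∈ tup (p + 1) (Ico m M), Yh p M y ≤ (p + 1) * (M : ℝ) ^ (p + 1) * (1 / ((hh p : ℕ) + 1)) := by
    refine le_trans (le_of_eq ?_) (h1.trans (le_of_eq ?_))
    · rfl
    · push_cast
      ring
  have h3 : 0 ≤ 1 / (2 * cc p) := by positivity
  have h4 := mul_le_mul_of_nonneg_left h2 h3
  linarith

/-- the sum over the tuples below `M`, second kind -/
theorem sum2 (p m M : ℕ) (hm : 1 ≤ m) (hmM : m ≤ M) :
    (3 / 2 - 1 / (2 * cc p)) * ((∑ q ∈ Ico m M, 1 / √(q : ℝ)) * ((Ico m M).card : ℝ) ^ p) -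
      1 / (2 * cc p) * (√(M : ℝ) / (hh p : ℕ) * (M : ℝ) ^ p + 2 * √(M : ℝ) * (p * (M : ℝ) ^ p * (1 / ((hh p : ℕ) + 1)))) ≤
      ∑ y ∈ tup (p + 1) (Ico m M), 1 / √(y 0 : ℝ) * (3 / 2 - (1 + Yh p M y) / (2 * cc p)) := by
  have hc := cc_ge p
  have hM0 : (0 : ℝ) < M := by exact_mod_cast (by omega : 0 < M)
  have hcard : ((Ico m M).card : ℝ) ≤ M := by
    rw [Nat.card_Ico]
    have : M - m ≤ M := Nat.sub_le _ _
    exact_mod_cast this
  have e1 : ∑ y ∈ tup (p + 1) (Ico m M), 1 / √(y 0 : ℝ) * (3 / 2 - (1 + Yh p M y) / (2 * cc p)) =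
      (3 / 2 - 1 / (2 * cc p)) * ((∑ q ∈ Ico m M, 1 / √(q : ℝ)) * ((Ico m M).card : ℝ) ^ p) -
      1 / (2 * cc p) * ((∑ q ∈ Ico m M, 1 / √(q : ℝ) * ((q : ℝ) / M) ^ hh p) * ((Ico m M).card : ℝ) ^ p +
        (∑ q ∈ Ico m M, 1 / √(q : ℝ)) * ∑ y ∈ tup p (Ico m M), Yh p M y) := by
    rw [sum_tup_succ]
    have e2 : ∀ q ∈ Ico m M, ∑ y ∈ tup p (Ico m M), 1 / √(((Fin.cons q y : Fin (p + 1) → ℕ) 0 : ℕ) : ℝ) *
        (3 / 2 - (1 + Yh p M (Fin.cons q y : Fin (p + 1) → ℕ)) / (2 * cc p)) =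
        (3 / 2 - 1 / (2 * cc p)) * (1 / √(q : ℝ) * ((Ico m M).card : ℝ) ^ p) -
        1 / (2 * cc p) * (1 / √(q : ℝ) * ((q : ℝ) / M) ^ hh p * ((Ico m M).card : ℝ) ^ p +
          1 / √(q : ℝ) * ∑ y ∈ tup p (Ico m M), Yh p M y) := by
      intro q _
      have e3 : ∀ y ∈ tup p (Ico m M), 1 / √(((Fin.cons q y : Fin (p + 1) → ℕ) 0 : ℕ) : ℝ) *
          (3 / 2 - (1 + Yh p M (Fin.cons q y : Fin (p + 1) → ℕ)) / (2 * cc p)) =
          ((3 / 2 - 1 / (2 * cc p)) * (1 / √(q : ℝ)) - 1 / (2 * cc p) * (1 / √(q : ℝ) * ((q : ℝ) / M) ^ hh p)) -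
          1 / (2 * cc p) * (1 / √(q : ℝ)) * Yh p M y := by
        intro y _
        have e4 : Yh p M (Fin.cons q y : Fin (p + 1) → ℕ) = ((q : ℝ) / M) ^ hh p + Yh p M y := by
          unfold Yh
          rw [Fin.sum_univ_succ]
          simp
        rw [e4, Fin.cons_zero]
        ring
      rw [Finset.sum_congr rfl e3, Finset.sum_sub_distrib, Finset.sum_const, card_tup, nsmul_eq_mul, ← Finset.mul_sum]
      push_cast
      ring
    rw [Finset.sum_congr rfl e2, Finset.sum_sub_distrib, ← Finset.mul_sum, ← Finset.mul_sum, Finset.sum_add_distrib,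
      ← Finset.sum_mul, ← Finset.sum_mul, ← Finset.sum_mul]
  rw [e1]
  have h1 := sum_Y_le (Ico m M) (fun q => ((q : ℝ) / M) ^ hh p) (fun q => by positivity) (M : ℝ) (1 / ((hh p : ℕ) + 1)) hM0.le
    hcard (sum_ratio_le (hh p) m M (by omega)) p
  have h2 : ∑ y ∈ tup p (Ico m M), Yh p M y ≤ p * (M : ℝ) ^ p * (1 / ((hh p : ℕ) + 1)) := h1
  have h3 : (∑ q ∈ Ico m M, 1 / √(q : ℝ) * ((q : ℝ) / M) ^ hh p) * ((Ico m M).card : ℝ) ^ p ≤
      √(M : ℝ) / (hh p : ℕ) * (M : ℝ) ^ p :=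
    mul_le_mul (Bh_upper (hh p) m M (by unfold hh; omega) hm hmM) (pow_le_pow_left₀ (Nat.cast_nonneg _) hcard p) (by positivity)
      (by positivity)
  have h4 : (∑ q ∈ Ico m M, 1 / √(q : ℝ)) * ∑ y ∈ tup p (Ico m M), Yh p M y ≤
      2 * √(M : ℝ) * (p * (M : ℝ) ^ p * (1 / ((hh p : ℕ) + 1))) := by
    refine mul_le_mul (B_upper m M hm hmM) h2 ?_ (by positivity)
    refine Finset.sum_nonneg fun y _ => ?_
    unfold Yh
    positivity
  have h5 : 0 ≤ 1 / (2 * cc p) := by positivity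
  have h6 := mul_le_mul_of_nonneg_left (add_le_add h3 h4) h5
  linarith

theorem sqrt_pow_hh (p : ℕ) (x : ℝ) (hx : 0 ≤ x) : √(x ^ hh p) = x ^ (p + 1) * √x := by
  unfold hh
  have e : x ^ (2 * p + 3) = (x ^ (p + 1)) ^ 2 * x := by ring
  rw [e, Real.sqrt_mul (by positivity), Real.sqrt_sq (by positivity)]

/-- one value of the largest coordinate -/
theorem row (p m M : ℕ) (hm : 1 ≤ m) (hmM : m ≤ M) :
    (hh p : ℕ) / √(cc p) * (1 / (M : ℝ) - 3 / 2 * (p + 1) * (1 / (M : ℝ) * √((m : ℝ) / M))) ≤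
      ∑ r : Fin (p + 2), ∑ y ∈ tup (p + 1) (Ico m M), G p (Fin.insertNth r M y) := by
  have hc := cc_ge p
  have hM1 : 1 ≤ M := by omega
  have hM0 : (0 : ℝ) < M := by exact_mod_cast (by omega : 0 < M)
  have hm0 : (0 : ℝ) < m := by exact_mod_cast (by omega : 0 < m)
  have hsM : 0 < √(M : ℝ) := Real.sqrt_pos.2 hM0
  have hMM : √(M : ℝ) * √(M : ℝ) = M := Real.mul_self_sqrt hM0.le
  have hp0 : (0 : ℝ) ≤ p := Nat.cast_nonneg _
  set ρ := √((m : ℝ) / M) with hρ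
  have hρ0 : 0 ≤ ρ := Real.sqrt_nonneg _
  have hρ2 : ρ ^ 2 = (m : ℝ) / M := Real.sq_sqrt (by positivity)
  have hρ1 : ρ ≤ 1 := by
    rw [hρ, show (1 : ℝ) = √1 by rw [Real.sqrt_one]]
    refine Real.sqrt_le_sqrt ?_
    rw [div_le_one hM0]
    exact_mod_cast hmM
  have hsm : √(m : ℝ) = ρ * √(M : ℝ) := by
    rw [hρ, ← Real.sqrt_mul (by positivity)]
    congr 1
    field_simp
  set L := ((Ico m M).card : ℝ) with hL
  have hLM : L = M * (1 - ρ ^ 2) := by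
    rw [hL, Nat.card_Ico, Nat.cast_sub hmM, hρ2]
    field_simp
  have hL0 : 0 ≤ L := Nat.cast_nonneg _
  set B := ∑ q ∈ Ico m M, 1 / √(q : ℝ) with hB
  have hB1 : 2 * √(M : ℝ) * (1 - ρ) ≤ B := by
    have := B_lower m M hm hmM
    rw [← hB, hsm] at this
    linarith
  have hLr : ∀ r : ℕ, (M : ℝ) ^ r * (1 - r * ρ) ≤ L ^ r := by
    intro r
    rw [hLM, mul_pow]
    exact mul_le_mul_of_nonneg_left (bern ρ hρ0 hρ1 r) (by positivity)
  set Q := √(M : ℝ) * (M : ℝ) ^ p with hQ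
  have hQ0 : 0 < Q := by positivity
  set a1 := 3 / 2 - 1 / (2 * cc p) with ha1
  have hc2 : 1 / (2 * cc p) ≤ 1 / 2 := one_div_le_one_div_of_le (by norm_num) (by linarith)
  have hc3 : 0 < 1 / (2 * cc p) := by positivity
  have ha11 : 1 ≤ a1 := by linarith
  have ha12 : a1 ≤ 3 / 2 := by linarith
  -- the masses
  have m1 : Q * (1 - (p + 1) * ρ) ≤ 1 / √(M : ℝ) * L ^ (p + 1) := by
    have h1 := mul_le_mul_of_nonneg_left (hLr (p + 1)) (by positivity : 0 ≤ 1 / √(M : ℝ))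
    refine le_trans (le_of_eq ?_) h1
    have e : 1 / √(M : ℝ) * ((M : ℝ) ^ (p + 1) * (1 - ((p + 1 : ℕ) : ℝ) * ρ)) =
        (M : ℝ) / √(M : ℝ) * (M : ℝ) ^ p * (1 - ((p : ℝ) + 1) * ρ) := by
      push_cast
      ring
    rw [e, hQ]
    congr 2
    rw [eq_div_iff hsM.ne', hMM]
  have m2 : 2 * Q * (1 - (p + 1) * ρ) ≤ B * L ^ p := by
    have h1 : 2 * √(M : ℝ) * (1 - ρ) * ((M : ℝ) ^ p * (1 - p * ρ)) ≤ B * L ^ p := by
      calc 2 * √(M : ℝ) * (1 - ρ) * ((M : ℝ) ^ p * (1 - p * ρ)) ≤ 2 * √(M : ℝ) * (1 - ρ) * L ^ p :=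
            mul_le_mul_of_nonneg_left (hLr p) (mul_nonneg (by positivity) (by linarith))
        _ ≤ B * L ^ p := mul_le_mul_of_nonneg_right hB1 (by positivity)
    refine le_trans ?_ h1
    have e : 2 * √(M : ℝ) * (1 - ρ) * ((M : ℝ) ^ p * (1 - p * ρ)) = 2 * Q * ((1 - ρ) * (1 - p * ρ)) := by
      rw [hQ]
      ring
    rw [e]
    refine mul_le_mul_of_nonneg_left ?_ (by positivity)
    nlinarith [mul_nonneg hp0 (sq_nonneg ρ)]
  -- the rest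
  have hF : (p + 1 : ℝ) * (1 / (((hh p : ℕ) : ℝ) + 1)) = cc p - 1 := by
    unfold hh cc
    push_cast
    field_simp
    ring
  have hH : ((hh p : ℕ) : ℝ) = 2 * p + 3 := by
    unfold hh
    push_cast
    ring
  have hF2 : 1 / ((hh p : ℕ) : ℝ) ≤ 2 * (1 / (((hh p : ℕ) : ℝ) + 1)) := by
    rw [hH, mul_one_div, div_le_div_iff₀ (by positivity) (by positivity)]
    linarith
  have s1 := sum1 p m M hm hmM
  have s2 := sum2 p m M hm hmM
  rw [← hL, ← ha1] at s1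
  rw [← hL, ← hB, ← ha1] at s2
  -- the sum over `r`
  have hsum : 1 / √((M : ℝ) ^ hh p) * (1 / √(cc p)) * (1 / √(M : ℝ) * (∑ y ∈ tup (p + 1) (Ico m M), (3 / 2 - (1 + Yh p M y) / (2 * cc p))) +
      (p + 1) * ∑ y ∈ tup (p + 1) (Ico m M), 1 / √(y 0 : ℝ) * (3 / 2 - (1 + Yh p M y) / (2 * cc p))) ≤
      ∑ r : Fin (p + 2), ∑ y ∈ tup (p + 1) (Ico m M), G p (Fin.insertNth r M y) := by
    have h1 : ∑ r : Fin (p + 2), ∑ y ∈ tup (p + 1) (Ico m M), 1 / √(((Fin.insertNth r M y : Fin (p + 2) → ℕ) 0 : ℕ) : ℝ) *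
        (1 / √((M : ℝ) ^ hh p) * (1 / √(cc p) * (3 / 2 - (1 + Yh p M y) / (2 * cc p)))) ≤
        ∑ r : Fin (p + 2), ∑ y ∈ tup (p + 1) (Ico m M), G p (Fin.insertNth r M y) :=
      Finset.sum_le_sum fun r _ => Finset.sum_le_sum fun y _ => G_ins p M hM1 r y
    refine le_trans (le_of_eq ?_) h1
    rw [Fin.sum_univ_succ]
    have e1 : ∀ i : Fin (p + 1), ∑ y ∈ tup (p + 1) (Ico m M), 1 / √(((Fin.insertNth i.succ M y : Fin (p + 2) → ℕ) 0 : ℕ) : ℝ) *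
        (1 / √((M : ℝ) ^ hh p) * (1 / √(cc p) * (3 / 2 - (1 + Yh p M y) / (2 * cc p)))) =
        1 / √((M : ℝ) ^ hh p) * (1 / √(cc p)) * ∑ y ∈ tup (p + 1) (Ico m M), 1 / √(y 0 : ℝ) * (3 / 2 - (1 + Yh p M y) / (2 * cc p)) := by
      intro i
      rw [Finset.mul_sum]
      refine Finset.sum_congr rfl fun y _ => ?_
      have e2 : (Fin.insertNth i.succ M y : Fin (p + 2) → ℕ) 0 = y 0 := by
        have e3 := Fin.insertNth_apply_succAbove (α := fun _ => ℕ) i.succ M y 0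
        rwa [Fin.succ_succAbove_zero] at e3
      rw [e2]
      ring
    have e4 : ∑ y ∈ tup (p + 1) (Ico m M), 1 / √(((Fin.insertNth 0 M y : Fin (p + 2) → ℕ) 0 : ℕ) : ℝ) *
        (1 / √((M : ℝ) ^ hh p) * (1 / √(cc p) * (3 / 2 - (1 + Yh p M y) / (2 * cc p)))) =
        1 / √((M : ℝ) ^ hh p) * (1 / √(cc p)) * (1 / √(M : ℝ) * ∑ y ∈ tup (p + 1) (Ico m M), (3 / 2 - (1 + Yh p M y) / (2 * cc p))) := by
      rw [Finset.mul_sum, Finset.mul_sum]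
      refine Finset.sum_congr rfl fun y _ => ?_
      have e5 : (Fin.insertNth 0 M y : Fin (p + 2) → ℕ) 0 = M := Fin.insertNth_apply_same _ _ _
      rw [e5]
      ring
    rw [e4, Finset.sum_congr rfl fun i _ => e1 i, Finset.sum_const, Finset.card_univ, Fintype.card_fin, nsmul_eq_mul]
    push_cast
    ring
  refine le_trans ?_ hsum
  have key : Q * ((hh p : ℕ) : ℝ) * (1 - 3 / 2 * (p + 1) * ρ) ≤
      1 / √(M : ℝ) * (∑ y ∈ tup (p + 1) (Ico m M), (3 / 2 - (1 + Yh p M y) / (2 * cc p))) +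
      (p + 1) * ∑ y ∈ tup (p + 1) (Ico m M), 1 / √(y 0 : ℝ) * (3 / 2 - (1 + Yh p M y) / (2 * cc p)) := by
    have t1 := mul_le_mul_of_nonneg_left s1 (by positivity : 0 ≤ 1 / √(M : ℝ))
    have t2 := mul_le_mul_of_nonneg_left s2 (by positivity : (0 : ℝ) ≤ p + 1)
    refine le_trans ?_ (add_le_add t1 t2)
    set F := 1 / (((hh p : ℕ) : ℝ) + 1) with hFd
    have e1 : 1 / √(M : ℝ) * (a1 * L ^ (p + 1) - 1 / (2 * cc p) * ((p + 1) * (M : ℝ) ^ (p + 1) * F)) =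
        a1 * (1 / √(M : ℝ) * L ^ (p + 1)) - 1 / (2 * cc p) * ((p + 1) * F * Q) := by
      have e2 : (M : ℝ) ^ (p + 1) = √(M : ℝ) * Q := by
        rw [hQ, ← mul_assoc, hMM]
        ring
      rw [e2]
      field_simp
    have e3 : ((p : ℝ) + 1) * (a1 * (B * L ^ p) - 1 / (2 * cc p) * (√(M : ℝ) / (hh p : ℕ) * (M : ℝ) ^ p +
        2 * √(M : ℝ) * (p * (M : ℝ) ^ p * F))) =
        a1 * ((p + 1) * (B * L ^ p)) - 1 / (2 * cc p) * ((p + 1) * (1 / ((hh p : ℕ) : ℝ) + 2 * p * F) * Q) := by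
      rw [hQ]
      ring
    rw [e1, e3]
    have n1 : a1 * (Q * ((hh p : ℕ) : ℝ) * (1 - (p + 1) * ρ)) ≤ a1 * (1 / √(M : ℝ) * L ^ (p + 1)) + a1 * ((p + 1) * (B * L ^ p)) := by
      rw [← mul_add]
      refine mul_le_mul_of_nonneg_left ?_ (by linarith)
      have m3 := mul_le_mul_of_nonneg_left m2 (by positivity : (0 : ℝ) ≤ p + 1)
      refine le_trans (le_of_eq ?_) (add_le_add m1 m3)
      rw [hH]
      ring
    have n2 : (p + 1) * F * Q + (p + 1) * (1 / ((hh p : ℕ) : ℝ) + 2 * p * F) * Q ≤ Q * ((hh p : ℕ) : ℝ) * (cc p - 1) := by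
      have n3 : (p + 1 : ℝ) * F + (p + 1) * (1 / ((hh p : ℕ) : ℝ) + 2 * p * F) ≤ ((hh p : ℕ) : ℝ) * (cc p - 1) := by
        rw [← hF, hH]
        have n4 := mul_le_mul_of_nonneg_left hF2 (by positivity : (0 : ℝ) ≤ p + 1)
        rw [hH] at n4
        nlinarith
      have n6 := mul_le_mul_of_nonneg_right n3 hQ0.le
      nlinarith
    have n7 := mul_le_mul_of_nonneg_left n2 hc3.le
    have n8 : 1 / (2 * cc p) * (Q * ((hh p : ℕ) : ℝ) * (cc p - 1)) = Q * ((hh p : ℕ) : ℝ) * (1 / 2 - 1 / (2 * cc p)) := by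
      field_simp
    rw [n8] at n7
    have n9 : Q * ((hh p : ℕ) : ℝ) * (1 - 3 / 2 * (p + 1) * ρ) ≤
        a1 * (Q * ((hh p : ℕ) : ℝ) * (1 - (p + 1) * ρ)) - Q * ((hh p : ℕ) : ℝ) * (1 / 2 - 1 / (2 * cc p)) := by
      have e5 : a1 * (Q * ((hh p : ℕ) : ℝ) * (1 - (p + 1) * ρ)) - Q * ((hh p : ℕ) : ℝ) * (1 / 2 - 1 / (2 * cc p)) =
          Q * ((hh p : ℕ) : ℝ) * (1 - a1 * ((p + 1) * ρ)) := by
        rw [ha1]
        ring
      rw [e5]
      refine mul_le_mul_of_nonneg_left ?_ (by positivity)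
      have : a1 * ((p + 1) * ρ) ≤ 3 / 2 * ((p + 1) * ρ) := mul_le_mul_of_nonneg_right ha12 (by positivity)
      linarith
    linarith
  have hPE : 0 ≤ 1 / √((M : ℝ) ^ hh p) * (1 / √(cc p)) := by positivity
  refine le_trans (le_of_eq ?_) (mul_le_mul_of_nonneg_left key hPE)
  rw [sqrt_pow_hh p _ hM0.le, hQ]
  have hsc : 0 < √(cc p) := Real.sqrt_pos.2 (by linarith)
  rw [pow_succ]
  field_simp

/-- the sum over all tuples -/
theorem G_sum (p m N : ℕ) (hm : 1 ≤ m) (hmN : m ≤ N) :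
    (hh p : ℕ) / √(cc p) * (Real.log (N / m) - 9 / 2 * (p + 1)) ≤ ∑ x ∈ tup (p + 2) (Ico m N), G p x := by
  refine le_trans ?_ (decomp (p + 1) m N (G p) (G_nonneg p))
  have h1 : ∑ M ∈ Ico m N, (hh p : ℕ) / √(cc p) * (1 / (M : ℝ) - 3 / 2 * (p + 1) * (1 / (M : ℝ) * √((m : ℝ) / M))) ≤
      ∑ M ∈ Ico m N, ∑ r : Fin (p + 1 + 1), ∑ y ∈ tup (p + 1) (Ico m M), G p (Fin.insertNth r M y) := by
    refine Finset.sum_le_sum fun M hM => ?_
    rw [Finset.mem_Ico] at hM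
    exact row p m M hm hM.1
  refine le_trans ?_ h1
  rw [← Finset.mul_sum, Finset.sum_sub_distrib, ← Finset.mul_sum]
  have hc := cc_ge p
  refine mul_le_mul_of_nonneg_left ?_ (by positivity)
  have h2 := Pool.Agent.B3.harm_lower m N hm hmN
  have h3 := Pool.Agent.B3.sq_sum' m N hm hmN
  have h4 := mul_le_mul_of_nonneg_left h3 (by positivity : (0 : ℝ) ≤ 3 / 2 * (p + 1))
  linarith

end Pool.Agent.BH
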